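import Mathlib
import Pool.Agent.W262.RK.AT4
import Pool.Agent.W655.RK.Ep

/-!
# Sums of products of Jacobi symbols with general prime weights: basic facts
-/

set_option autoImplicit false

namespace Pool.Agent.L0h5.AG

open Finset Pool.Agent.W262.RK Pool.Agent.W262.RK.AT

variable {ι : Type} [Fintype ι] [DecidableEq ι]

/-- the weight of `d` -/
noncomputable def gg (g : ι → ℕ → ℝ) (i : ι) (d : ℕ) : ℝ := ∏ p ∈ d.primeFactors, g i p

/-- the absolute value of the weight times `hh` -/
noncomputable def ah (g : ι → ℕ → ℝ) (i : ι) (d : ℕ) : ℝ := |gg g i d| * hh d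

open Classical in
/-- the summand -/
noncomputable def HG (g : ι → ℕ → ℝ) (L : ι → ι → Bool) (d : ι → ℕ) : ℝ :=
  if (∀ i j, i ≠ j → (d i).Coprime (d j)) then (∏ i, gg g i (d i)) * Sym L (fun _ => 1) d else 0

omit [Fintype ι] [DecidableEq ι] in
lemma gg_one (g : ι → ℕ → ℝ) (i : ι) : gg g i 1 = 1 := by simp [gg]

omit [Fintype ι] [DecidableEq ι] in
lemma ah_nonneg (g : ι → ℕ → ℝ) (i : ι) (d : ℕ) : 0 ≤ ah g i d :=
  mul_nonneg (abs_nonneg _) (hh_nonneg _)

omit [Fintype ι] [DecidableEq ι] in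
lemma abs_le_ah (g : ι → ℕ → ℝ) (i : ι) (d : ℕ) : |gg g i d| ≤ ah g i d :=
  le_mul_of_one_le_right (abs_nonneg _) (one_le_hh _)

lemma total_eq (g : ι → ℕ → ℝ) (L : ι → ι → Bool) (z y : ℕ) :
    ∑ d ∈ Tup ι z y, (∏ i, gg g i (d i)) * Sym L (fun _ => 1) d =
      ∑ d ∈ Fintype.piFinset (fun _ : ι => (PP z y).divisors), HG g L d := by
  unfold Tup HG
  rw [sum_filter]

lemma abs_HG_le (g : ι → ℕ → ℝ) (L : ι → ι → Bool) (d : ι → ℕ) :
    |HG g L d| ≤ ∏ i, |gg g i (d i)| := by
  classical
  have h0 : 0 ≤ ∏ i, |gg g i (d i)| := prod_nonneg fun i _ => abs_nonneg _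
  unfold HG
  split_ifs
  · rw [abs_mul, abs_prod]
    exact mul_le_of_le_one_right h0 (abs_Sym_le _ _ _)
  · simpa using h0

lemma abs_HG_le' (g : ι → ℕ → ℝ) (L : ι → ι → Bool) (d : ι → ℕ) :
    |HG g L d| ≤ ∏ i, ah g i (d i) :=
  (abs_HG_le g L d).trans (prod_le_prod (fun i _ => abs_nonneg _) fun i _ => abs_le_ah g i _)

/-- trivial bound -/
lemma triv (g : ι → ℕ → ℝ) (L : ι → ι → Bool) (t : ι → Finset ℕ) :
    |∑ d ∈ Fintype.piFinset t, HG g L d| ≤ ∏ i, ∑ m ∈ t i, ah g i m := by
  rw [prod_univ_sum]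
  exact (abs_sum_le_sum_abs _ _).trans (sum_le_sum fun d _ => abs_HG_le' g L d)

lemma Jr_one_left' (m : ℕ) : Jr 1 m = 1 := by simp [Jr]

/-- the summand as a function of one variable -/
lemma HG_update {g : ι → ℕ → ℝ} {L : ι → ι → Bool} {z y : ℕ} (i : ι)
    (hL : L i i = false) (hz : 2 ≤ z) {e : ι → ℕ} (he : ∀ b, e b ∈ (PP z y).divisors) :
    (∀ m, HG g L (Function.update e i m) = 0) ∨
      (∀ a b, a ≠ i → b ≠ i → a ≠ b → (e a).Coprime (e b)) ∧ ∃ t : Bool, ∀ m ∈ (PP z y).divisors,
      HG g L (Function.update e i m) =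
        if m.Coprime (∏ b ∈ univ.erase i, e b) then
          ((∏ b ∈ univ.erase i, gg g b (e b)) * RR L (fun _ => 1) i e) *
            (gg g i m * (Jr m (lk L i e) * x4 t m)) else 0 := by
  classical
  by_cases hcop : ∀ a b, a ≠ i → b ≠ i → a ≠ b → (e a).Coprime (e b)
  · right
    refine ⟨hcop, ?_⟩
    obtain ⟨t, ht⟩ := XX_char L i e (fun b => dv_odd hz (he b))
    refine ⟨t, fun m hm => ?_⟩
    have hiff : m.Coprime (∏ b ∈ univ.erase i, e b) ↔ ∀ b, b ≠ i → m.Coprime (e b) := by
      rw [Nat.coprime_prod_right_iff]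
      simp
    have hiff2 : (∀ a b, a ≠ b → (Function.update e i m a).Coprime (Function.update e i m b)) ↔
        ∀ b, b ≠ i → m.Coprime (e b) := by
      constructor
      · intro h b hb
        have := h i b (Ne.symm hb)
        rwa [Function.update_self, Function.update_of_ne hb] at this
      · intro h a b hab
        by_cases ha : a = i
        · subst ha
          rw [Function.update_self, Function.update_of_ne (Ne.symm hab)]
          exact h b (Ne.symm hab)
        · by_cases hb : b = i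
          · subst hb
            rw [Function.update_self, Function.update_of_ne ha]
            exact (h a ha).symm
          · rw [Function.update_of_ne ha, Function.update_of_ne hb]
            exact hcop a b ha hb hab
    unfold HG
    by_cases h : ∀ b, b ≠ i → m.Coprime (e b)
    · rw [if_pos (hiff2.2 h), if_pos (hiff.2 h), sym_update L _ i hL, ht m (dv_odd hz hm) h,
        ← mul_prod_erase univ _ (mem_univ i), Function.update_self, Jr_one_left']
      have : ∏ b ∈ univ.erase i, gg g b (Function.update e i m b) =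
          ∏ b ∈ univ.erase i, gg g b (e b) := by
        apply prod_congr rfl
        intro b hb
        rw [Function.update_of_ne (mem_erase.1 hb).1]
      rw [this]
      ring
    · rw [if_neg (fun h' => h (hiff2.1 h')), if_neg (fun h' => h (hiff.1 h'))]
  · left
    intro m
    unfold HG
    rw [if_neg]
    intro h
    apply hcop
    intro a b ha hb hab
    have := h a b hab
    rwa [Function.update_of_ne ha, Function.update_of_ne hb] at this

/-- the bounds used (for fixed `z`) -/
structure Bw (g : ι → ℕ → ℝ) (e : ι → ℝ) (c z : ℕ) (C : ℝ) : Prop where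
  z2 : 2 ≤ z
  zc : 2 * c + 2 ≤ z
  C1 : 1 ≤ C
  g1 : ∀ i p, p.Prime → z < p → |g i p| ≤ (1 / 2) / ((p : ℝ) - c)
  e0 : ∀ i, 0 < e i
  F0 : ∀ i y, z < y → ∑ d ∈ (PP z y).divisors, ah g i d ≤ C * Real.log y
  F1 : ∀ i y, z < y → ∑ d ∈ (PP z y).divisors, ah g i d ≤ C * (Real.log y) ^ (e i)
  F2 : ∀ i (y V : ℕ), z < y → 2 ≤ V →
    ∑ d ∈ (PP z y).divisors.filter (fun d => d ≤ V), ah g i d ≤ C * Real.log V
  F3 : ∀ i (y Y : ℕ), z < y → 1 ≤ Y →
    ∑ d ∈ (PP z y).divisors.filter (fun d => Y < d), ah g i d ≤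
      C * Real.exp (-(Real.log Y / Real.log y)) * (Real.log y) ^ 2

variable {g : ι → ℕ → ℝ} {e : ι → ℝ} {L : ι → ι → Bool} {c z : ℕ} {C : ℝ}

omit [Fintype ι] [DecidableEq ι] in
lemma abs_gg_le_gw (hg : ∀ i p, p.Prime → z < p → |g i p| ≤ (1 / 2) / ((p : ℝ) - c))
    (i : ι) {y m : ℕ} (hm : m ∈ (PP z y).divisors) : |gg g i m| ≤ gw (1 / 2) c m := by
  unfold gg gw
  rw [abs_prod]
  refine prod_le_prod (fun _ _ => abs_nonneg _) fun p hp => ?_
  have hpp := Nat.prime_of_mem_primeFactors hp
  exact hg i p hpp (dv_prime hm hpp (Nat.dvd_of_mem_primeFactors hp)).1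

omit [Fintype ι] [DecidableEq ι] in
lemma abs_gg_le (hB : Bw g e c z C) (i : ι) {y m : ℕ} (hm : m ∈ (PP z y).divisors) :
    |gg g i m| ≤ 1 / (m : ℝ) :=
  (abs_gg_le_gw hB.g1 i hm).trans
    (gw_le (by norm_num) le_rfl (by have := hB.zc; omega) hm)

omit [Fintype ι] [DecidableEq ι] in
/-- the twisted Euler product -/
lemma euler (hB : Bw g e c z C) (i : ι) {y R r : ℕ} (t : Bool) (hR : R ≠ 0) {B : ℝ}
    (hb : ∑ p ∈ PS z y, g i p * (Jr p r * x4 t p) ≤ B) :
    |∑ d ∈ (PP z y).divisors.filter (fun d => d.Coprime R),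
        gg g i d * (Jr d r * x4 t d)| ≤ Real.exp B * hh R := by
  classical
  set S' := (PS z y).filter (fun p => ¬ p ∣ R) with hS'
  have hS'p : ∀ p ∈ S', p.Prime := fun p hp => Pool.Agent.W655.RK.PS_prime (mem_filter.1 hp).1
  have hset : (PP z y).divisors.filter (fun d => d.Coprime R) = (∏ p ∈ S', p).divisors := by
    have hsq1 := Pool.Agent.W655.RK.prod_primes_squarefree (PS z y)
      fun p hp => Pool.Agent.W655.RK.PS_prime hp
    have hsq2 := Pool.Agent.W655.RK.prod_primes_squarefree S' hS'p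
    ext d
    rw [mem_filter, Nat.mem_divisors, Nat.mem_divisors]
    constructor
    · rintro ⟨⟨hd, -⟩, hc⟩
      refine ⟨?_, hsq2.ne_zero⟩
      have hsd : Squarefree d := hsq1.squarefree_of_dvd hd
      rw [← Nat.prod_primeFactors_of_squarefree hsd]
      refine Finset.prod_dvd_prod_of_subset _ _ _ fun p hp => ?_
      have hpp := Nat.prime_of_mem_primeFactors hp
      have hpd := Nat.dvd_of_mem_primeFactors hp
      have h1 : p ∈ PS z y := by
        rw [← Nat.primeFactors_prod (s := PS z y) fun p hp => Pool.Agent.W655.RK.PS_prime hp]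
        exact Nat.primeFactors_mono hd hsq1.ne_zero hp
      refine mem_filter.2 ⟨h1, fun hpR => ?_⟩
      have := Nat.dvd_gcd hpd hpR
      rw [hc.gcd_eq_one] at this
      exact hpp.one_lt.ne' (Nat.dvd_one.1 this)
    · rintro ⟨hd, -⟩
      refine ⟨⟨hd.trans (Finset.prod_dvd_prod_of_subset _ _ _ (filter_subset _ _)),
        hsq1.ne_zero⟩, ?_⟩
      refine Nat.Coprime.coprime_dvd_left hd ?_
      exact Nat.Coprime.prod_left fun p hp =>
        ((hS'p p hp).coprime_iff_not_dvd).2 (mem_filter.1 hp).2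
  set ψ : ℕ → ℝ := fun p => Jr p r * x4 t p with hψ
  have hψ1 : ∀ p, |ψ p| ≤ 1 := by
    intro p
    rw [hψ]
    simp only
    rw [abs_mul]
    exact mul_le_one₀ (abs_Jr_le _ _) (abs_nonneg _) (abs_x4_le _ _)
  have hchr : ∀ d, Pool.Agent.W655.RK.chr 1 r t d = ψ d := by
    intro d
    simp only [hψ, Pool.Agent.W655.RK.chr, Jr_one_left', mul_one]
  have hsum : ∑ d ∈ (PP z y).divisors.filter (fun d => d.Coprime R),
      gg g i d * (Jr d r * x4 t d) = ∏ p ∈ S', (1 + g i p * ψ p) := by
    rw [hset, ← Pool.Agent.W655.RK.sum_mult S' hS'p fun p => g i p * ψ p]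
    refine Finset.sum_congr rfl fun d hd => ?_
    have hsd : Squarefree d :=
      (Pool.Agent.W655.RK.prod_primes_squarefree S' hS'p).squarefree_of_dvd
        (Nat.dvd_of_mem_divisors hd)
    have h1 : ψ d = ∏ p ∈ d.primeFactors, ψ p := by
      have h2 := Pool.Agent.W655.RK.chr_prod 1 r t d.primeFactors
        (fun p hp => Nat.prime_of_mem_primeFactors hp)
      rw [Nat.prod_primeFactors_of_squarefree hsd] at h2
      rw [← hchr, h2]
      exact prod_congr rfl fun p _ => hchr p
    show gg g i d * ψ d = _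
    rw [h1, gg, ← Finset.prod_mul_distrib]
  rw [hsum]
  have hgb : ∀ p ∈ PS z y, |g i p| ≤ 1 / (p : ℝ) ∧ (3 : ℝ) ≤ p := by
    intro p hp
    have hp' := mem_PS.1 hp
    have h1 := hB.g1 i p hp'.2 hp'.1.1
    have h2 : (2 * c + 3 : ℝ) ≤ p := by
      have := hB.zc
      exact_mod_cast (by omega : 2 * c + 3 ≤ p)
    have hc0 : (0 : ℝ) ≤ c := Nat.cast_nonneg c
    have h3 : (0 : ℝ) < (p : ℝ) - c := by linarith
    refine ⟨h1.trans ?_, by linarith⟩
    rw [div_le_div_iff₀ h3 (by linarith)]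
    linarith
  have hfac : ∀ p ∈ S', 0 ≤ 1 + g i p * ψ p := by
    intro p hp
    obtain ⟨h1, h2⟩ := hgb p (mem_filter.1 hp).1
    have h3 : |g i p * ψ p| ≤ 1 := by
      rw [abs_mul]
      have h4 : |g i p| ≤ 1 := h1.trans (by
        rw [div_le_one (by linarith)]
        linarith)
      exact mul_le_one₀ h4 (abs_nonneg _) (hψ1 p)
    linarith [(abs_le.1 h3).1]
  rw [abs_of_nonneg (Finset.prod_nonneg hfac)]
  refine (Pool.Agent.W655.RK.prod_le_exp S' _ hfac).trans ?_
  have hsplit := Finset.sum_filter_add_sum_filter_not (PS z y) (fun p => p ∣ R)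
      (fun p => g i p * ψ p)
  have h1 : -∑ p ∈ (PS z y).filter (fun p => p ∣ R), 1 / (p : ℝ) ≤
      ∑ p ∈ (PS z y).filter (fun p => p ∣ R), g i p * ψ p := by
    rw [← Finset.sum_neg_distrib]
    refine Finset.sum_le_sum fun p hp => ?_
    have h2 : |g i p * ψ p| ≤ 1 / (p : ℝ) := by
      rw [abs_mul]
      calc |g i p| * |ψ p| ≤ |g i p| * 1 := mul_le_mul_of_nonneg_left (hψ1 p) (abs_nonneg _)
        _ ≤ _ := by rw [mul_one]; exact (hgb p (mem_filter.1 hp).1).1
    exact (abs_le.1 h2).1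
  have hexp : ∑ p ∈ S', g i p * ψ p ≤ B + ∑ p ∈ (PS z y).filter (fun p => p ∣ R), 1 / (p : ℝ) := by
    have hb' : ∑ p ∈ PS z y, g i p * ψ p ≤ B := hb
    linarith
  have hhh : Real.exp (∑ p ∈ (PS z y).filter (fun p => p ∣ R), 1 / (p : ℝ)) ≤ hh R := by
    rw [Real.exp_sum]
    unfold hh
    have hsub : (PS z y).filter (fun p => p ∣ R) ⊆ R.primeFactors := by
      intro p hp
      rw [mem_filter] at hp
      exact Nat.mem_primeFactors.2 ⟨Pool.Agent.W655.RK.PS_prime hp.1, hp.2, hR⟩
    calc ∏ p ∈ (PS z y).filter (fun p => p ∣ R), Real.exp (1 / (p : ℝ))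
        ≤ ∏ p ∈ (PS z y).filter (fun p => p ∣ R), (1 + 2 / (p : ℝ)) := by
          refine Finset.prod_le_prod (fun p _ => (Real.exp_pos _).le) fun p hp => ?_
          have h2 := (hgb p (mem_filter.1 hp).1).2
          have hp0 : (0:ℝ) < p := by linarith
          have h3 : 1 / (p : ℝ) ≤ 1 / 2 := by
            rw [div_le_div_iff₀ hp0 (by norm_num)]
            linarith
          refine (Pool.Agent.W655.RK.exp_small _ (by positivity) h3).trans (le_of_eq ?_)
          ring
      _ ≤ ∏ p ∈ R.primeFactors, (1 + 2 / (p : ℝ)) := by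
          refine Finset.prod_le_prod_of_subset_of_one_le hsub (fun p _ => by positivity)
            fun p _ _ => ?_
          have : (0:ℝ) ≤ 2 / (p : ℝ) := by positivity
          linarith
  calc Real.exp (∑ p ∈ S', g i p * ψ p) ≤ Real.exp (B +
        ∑ p ∈ (PS z y).filter (fun p => p ∣ R), 1 / (p : ℝ)) := Real.exp_le_exp.2 hexp
    _ = Real.exp B * Real.exp (∑ p ∈ (PS z y).filter (fun p => p ∣ R), 1 / (p : ℝ)) :=
        Real.exp_add _ _
    _ ≤ _ := mul_le_mul_of_nonneg_left hhh (Real.exp_pos _).le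

/-- the sum over one large variable with a good character -/
lemma inner (hB : Bw g e c z C) (i : ι) (hL : L i i = false) {y V Y : ℕ} (hy : z < y) (hV : 2 ≤ V)
    (hVY : V ≤ Y) {d : ι → ℕ} (hd : ∀ b, d b ∈ (PP z y).divisors) {B : ℝ}
    (hb : ∀ t, ∑ p ∈ PS z y, g i p * (Jr p (lk L i d) * x4 t p) ≤ B) :
    |∑ m ∈ (PP z y).divisors.filter (fun m => V < m ∧ m ≤ Y), HG g L (Function.update d i m)| ≤
      (∏ b ∈ univ.erase i, ah g b (d b)) *
        (Real.exp B + C * Real.log V +
          C * Real.exp (-(Real.log Y / Real.log y)) * (Real.log y) ^ 2) := by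
  have hC0 : 0 ≤ C := zero_le_one.trans hB.C1
  have hV' : 0 ≤ Real.log V := Real.log_natCast_nonneg V
  have hP0 : 0 ≤ ∏ b ∈ univ.erase i, ah g b (d b) := prod_nonneg fun b _ => ah_nonneg _ _ _
  have hB0 : 0 ≤ Real.exp B + C * Real.log V +
      C * Real.exp (-(Real.log Y / Real.log y)) * (Real.log y) ^ 2 := by positivity
  rcases HG_update (g := g) i hL hB.z2 hd with h | ⟨hcop, t, ht⟩
  · rw [sum_eq_zero fun m _ => h m, abs_zero]
    exact mul_nonneg hP0 hB0
  · set R := ∏ b ∈ univ.erase i, d b with hR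
    set P := ∏ b ∈ univ.erase i, gg g b (d b) with hP
    set f : ℕ → ℝ := fun m => gg g i m * (Jr m (lk L i d) * x4 t m) with hf
    have hRne : R ≠ 0 := prod_ne_zero_iff.2 fun b _ => dv_ne_zero (hd b)
    have h1 : ∑ m ∈ (PP z y).divisors.filter (fun m => V < m ∧ m ≤ Y),
        HG g L (Function.update d i m) =
        P * RR L (fun _ => 1) i d * ∑ m ∈ ((PP z y).divisors.filter (fun m => m.Coprime R)).filter
          (fun m => V < m ∧ m ≤ Y), f m := by
      rw [filter_filter, mul_sum]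
      have h2 : (PP z y).divisors.filter (fun m => m.Coprime R ∧ V < m ∧ m ≤ Y) =
          ((PP z y).divisors.filter (fun m => V < m ∧ m ≤ Y)).filter (fun m => m.Coprime R) := by
        rw [filter_filter]
        apply filter_congr
        intro m _
        tauto
      rw [h2]
      symm
      rw [sum_filter]
      apply sum_congr rfl
      intro m hm
      rw [ht m (mem_filter.1 hm).1]
    set D := (PP z y).divisors.filter (fun m => m.Coprime R) with hD
    have hDs : D ⊆ (PP z y).divisors := filter_subset _ _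
    have h3 : ∑ m ∈ D.filter (fun m => V < m ∧ m ≤ Y), f m =
        ∑ m ∈ D, f m - ∑ m ∈ D.filter (fun m => m ≤ V), f m - ∑ m ∈ D.filter (fun m => Y < m), f m := by
      have e1 : ∑ m ∈ D.filter (fun m => V < m ∧ m ≤ Y), f m + ∑ m ∈ D.filter (fun m => Y < m), f m =
          ∑ m ∈ D.filter (fun m => ¬ m ≤ V), f m := by
        rw [← sum_union]
        · apply sum_congr _ (fun _ _ => rfl)
          ext m
          simp only [mem_union, mem_filter]
          constructor
          · rintro (⟨h1, h2, h3⟩ | ⟨h1, h2⟩)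
            · exact ⟨h1, by omega⟩
            · exact ⟨h1, by omega⟩
          · rintro ⟨h1, h2⟩
            by_cases h3 : m ≤ Y
            · exact Or.inl ⟨h1, by omega, h3⟩
            · exact Or.inr ⟨h1, by omega⟩
        · rw [disjoint_filter]
          intro m _ h1 h2
          omega
      have e2 := sum_filter_add_sum_filter_not D (fun m => m ≤ V) f
      linarith
    have hfa : ∀ m ∈ (PP z y).divisors, |f m| ≤ ah g i m := by
      intro m hm
      rw [hf]
      simp only
      rw [abs_mul]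
      have : |Jr m (lk L i d) * x4 t m| ≤ 1 := by
        rw [abs_mul]
        exact mul_le_one₀ (abs_Jr_le _ _) (abs_nonneg _) (abs_x4_le _ _)
      calc |gg g i m| * |Jr m (lk L i d) * x4 t m| ≤ |gg g i m| * 1 :=
            mul_le_mul_of_nonneg_left this (abs_nonneg _)
        _ ≤ ah g i m := by rw [mul_one]; exact abs_le_ah g i m
    have h4 : |∑ m ∈ D.filter (fun m => m ≤ V), f m| ≤ C * Real.log V := by
      refine (abs_sum_le_sum_abs _ _).trans ?_
      refine le_trans ?_ (hB.F2 i y V hy hV)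
      calc ∑ m ∈ D.filter (fun m => m ≤ V), |f m| ≤ ∑ m ∈ D.filter (fun m => m ≤ V),
            ah g i m := sum_le_sum fun m hm => hfa m (hDs (mem_filter.1 hm).1)
        _ ≤ _ := sum_le_sum_of_subset_of_nonneg (filter_subset_filter _ hDs)
          fun m _ _ => ah_nonneg _ _ _
    have h5 : |∑ m ∈ D.filter (fun m => Y < m), f m| ≤
        C * Real.exp (-(Real.log Y / Real.log y)) * (Real.log y) ^ 2 := by
      refine (abs_sum_le_sum_abs _ _).trans ?_
      refine le_trans ?_ (hB.F3 i y Y hy (by omega))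
      calc ∑ m ∈ D.filter (fun m => Y < m), |f m| ≤ ∑ m ∈ D.filter (fun m => Y < m),
            ah g i m := sum_le_sum fun m hm => hfa m (hDs (mem_filter.1 hm).1)
        _ ≤ _ := sum_le_sum_of_subset_of_nonneg (filter_subset_filter _ hDs)
          fun m _ _ => ah_nonneg _ _ _
    have h6 : |∑ m ∈ D, f m| ≤ Real.exp B * hh R := euler hB i t hRne (hb t)
    have h7 : hh R ≤ ∏ b ∈ univ.erase i, hh (d b) :=
      hh_prod_le _ _ fun b _ => dv_ne_zero (hd b)
    have h8 : (1 : ℝ) ≤ ∏ b ∈ univ.erase i, hh (d b) := by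
      calc (1 : ℝ) = ∏ b ∈ univ.erase i, (1 : ℝ) := by simp
        _ ≤ _ := prod_le_prod (fun _ _ => zero_le_one) fun b _ => one_le_hh _
    have hRR := abs_RR_le L (fun _ => 1) i d
    have hah : ∏ b ∈ univ.erase i, ah g b (d b) = |P| * ∏ b ∈ univ.erase i, hh (d b) := by
      unfold ah
      rw [prod_mul_distrib, hP, abs_prod]
    rw [h1, abs_mul, abs_mul, hah]
    set H := ∏ b ∈ univ.erase i, hh (d b) with hH
    have h9 : |∑ m ∈ D.filter (fun m => V < m ∧ m ≤ Y), f m| ≤
        H * (Real.exp B + C * Real.log V +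
          C * Real.exp (-(Real.log Y / Real.log y)) * (Real.log y) ^ 2) := by
      rw [h3]
      have a1 : |∑ m ∈ D, f m - ∑ m ∈ D.filter (fun m => m ≤ V), f m -
          ∑ m ∈ D.filter (fun m => Y < m), f m| ≤ |∑ m ∈ D, f m| +
          |∑ m ∈ D.filter (fun m => m ≤ V), f m| + |∑ m ∈ D.filter (fun m => Y < m), f m| := by
        refine (abs_sub _ _).trans ?_
        have := abs_sub (∑ m ∈ D, f m) (∑ m ∈ D.filter (fun m => m ≤ V), f m)
        linarith
      have b1 : 0 ≤ Real.exp B := (Real.exp_pos B).le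
      have b2 : 0 ≤ C * Real.log V := by positivity
      have b3 : 0 ≤ C * Real.exp (-(Real.log Y / Real.log y)) * (Real.log y) ^ 2 := by positivity
      have a2 : |∑ m ∈ D, f m| ≤ H * Real.exp B := by
        refine h6.trans ?_
        rw [mul_comm]
        exact mul_le_mul_of_nonneg_right h7 b1
      have a3 := le_mul_of_one_le_left b2 h8
      have a4 := le_mul_of_one_le_left b3 h8
      calc _ ≤ _ := a1
        _ ≤ H * Real.exp B + H * (C * Real.log V) +
            H * (C * Real.exp (-(Real.log Y / Real.log y)) * (Real.log y) ^ 2) := by linarith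
        _ = _ := by ring
    calc |P| * |RR L (fun _ => 1) i d| * |∑ m ∈ D.filter (fun m => V < m ∧ m ≤ Y), f m|
        ≤ |P| * 1 * (H * (Real.exp B + C * Real.log V +
          C * Real.exp (-(Real.log Y / Real.log y)) * (Real.log y) ^ 2)) := by
          apply mul_le_mul (mul_le_mul_of_nonneg_left hRR (abs_nonneg _)) h9 (abs_nonneg _)
          positivity
      _ = _ := by ring

/-- the sum over the variables with a good character -/
lemma char_case (hB : Bw g e c z C) (i : ι) (hL : L i i = false) {y V Y : ℕ} (hy : z < y)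
    (hV : 2 ≤ V) (hVY : V ≤ Y) {t : ι → Finset ℕ} (ht : ∀ b, t b ⊆ (PP z y).divisors)
    (hti : t i = (PP z y).divisors.filter (fun m => V < m ∧ m ≤ Y)) {B : ℝ}
    (hlk : ∀ d ∈ Fintype.piFinset (Function.update t i {1}),
      ∀ t, ∑ p ∈ PS z y, g i p * (Jr p (lk L i d) * x4 t p) ≤ B) :
    |∑ d ∈ Fintype.piFinset t, HG g L d| ≤
      (∏ b ∈ univ.erase i, ∑ m ∈ t b, ah g b m) *
        (Real.exp B + C * Real.log V +
          C * Real.exp (-(Real.log Y / Real.log y)) * (Real.log y) ^ 2) := by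
  rw [sum_update t i]
  refine (abs_sum_le_sum_abs _ _).trans ?_
  rw [← sum_others i t (fun b m => ah g b m), sum_mul]
  apply sum_le_sum
  intro d hd
  have hd' : ∀ b, d b ∈ (PP z y).divisors := by
    intro b
    have := Fintype.mem_piFinset.1 hd b
    by_cases hb : b = i
    · subst hb
      rw [Function.update_self, mem_singleton] at this
      rw [this]
      exact one_mem_dv z y
    · rw [Function.update_of_ne hb] at this
      exact ht b this
  rw [hti]
  exact inner hB i hL hy hV hVY hd' (hlk d hd)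

end Pool.Agent.L0h5.AG
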