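import Mathlib
import Pool.Agent.L0h5.AG.A1
import Pool.Agent.W586.RK.UB

/-!
# Only few characters are exceptional for a weight on the primes
-/

set_option autoImplicit false

namespace Pool.Agent.L0h5.AG

open Finset Pool.Agent.W262.RK Pool.Agent.W262.RK.AT

/-- the character -/
noncomputable def ps (r : ℕ) (t : Bool) (p : ℕ) : ℝ := Jr p r * x4 t p

lemma abs_ps (r : ℕ) (t : Bool) (p : ℕ) : |ps r t p| ≤ 1 := by
  unfold ps
  rw [abs_mul]
  exact mul_le_one₀ (abs_Jr_le _ _) (abs_nonneg _) (abs_x4_le _ _)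

lemma card_pf_le {g : ℕ} (hg : g ≠ 0) : (g.primeFactors.card : ℝ) ≤ 2 * Real.log g := by
  have h1 : 2 ^ g.primeFactors.card ≤ g := by
    calc 2 ^ g.primeFactors.card = ∏ p ∈ g.primeFactors, 2 := by rw [prod_const]
      _ ≤ ∏ p ∈ g.primeFactors, p :=
          prod_le_prod' fun p hp => (Nat.prime_of_mem_primeFactors hp).two_le
      _ ≤ g := Nat.le_of_dvd (Nat.pos_of_ne_zero hg) (Nat.prod_primeFactors_dvd g)
  have h2 : (2 : ℝ) ^ g.primeFactors.card ≤ g := by exact_mod_cast h1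
  have h3 := Real.log_le_log (by positivity) h2
  rw [Real.log_pow] at h3
  have h4 := Real.log_two_gt_d9
  have h5 : (0 : ℝ) ≤ g.primeFactors.card := Nat.cast_nonneg _
  nlinarith

/-- the correlation of two different characters -/
lemma pair_bound (z : ℕ) (hz : 2 ≤ z) : ∃ C0 : ℝ, 0 ≤ C0 ∧ ∀ (y r r' Z : ℕ) (t : Bool), z < y →
    r ≠ r' → 1 ≤ r → 1 ≤ r' → r ≤ Z → r' ≤ Z → Squarefree r → Squarefree r' →
    (∀ p : ℕ, p.Prime → p ∣ r → z < p) → (∀ p : ℕ, p.Prime → p ∣ r' → z < p) →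
    ∑ p ∈ PS z y, (1 / (p : ℝ)) * (ps r t p * ps r' t p) ≤
      Real.log (2 * Real.log Z) + 2 * Real.log Z / z + C0 := by
  obtain ⟨C, hC⟩ := Pool.Agent.W586.RK.UB.ub 1 z one_ne_zero hz (by simpa using by omega)
  refine ⟨|C|, abs_nonneg C, fun y r r' Z t hy hne hr1 hr1' hrZ hrZ' hs hs' hp hp' => ?_⟩
  set g := Nat.gcd r r' with hg
  have hg0 : 0 < g := Nat.gcd_pos_of_pos_left _ hr1
  obtain ⟨a, ha⟩ := Nat.gcd_dvd_left r r'
  obtain ⟨b, hb⟩ := Nat.gcd_dvd_right r r'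
  rw [← hg] at ha hb
  have hab : a.Coprime b := by
    have h1 : Nat.gcd (g * a) (g * b) = g := by rw [← ha, ← hb]
    rw [Nat.gcd_mul_left] at h1
    exact Nat.eq_of_mul_eq_mul_left hg0 (by rw [h1, mul_one])
  have hsa : Squarefree a := hs.squarefree_of_dvd ⟨g, by rw [ha]; ring⟩
  have hsb : Squarefree b := hs'.squarefree_of_dvd ⟨g, by rw [hb]; ring⟩
  have hsab : Squarefree (a * b) := (Nat.squarefree_mul hab).2 ⟨hsa, hsb⟩
  have ha0 : 0 < a := Nat.pos_of_ne_zero hsa.ne_zero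
  have hb0 : 0 < b := Nat.pos_of_ne_zero hsb.ne_zero
  have hab1 : 1 < a * b := by
    rcases Nat.lt_or_ge 1 (a * b) with h | h
    · exact h
    · exfalso
      have h1 : a = 1 := by nlinarith
      have h2 : b = 1 := by nlinarith
      apply hne
      rw [ha, hb, h1, h2]
  have hpab : ∀ p : ℕ, p.Prime → p ∣ a * b → z < p := by
    intro p hpp hpd
    rcases (Nat.Prime.dvd_mul hpp).1 hpd with h | h
    · exact hp p hpp (h.trans ⟨g, by rw [ha]; ring⟩)
    · exact hp' p hpp (h.trans ⟨g, by rw [hb]; ring⟩)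
  have hub := hC y (a * b) false hy hab1 hsab hpab
  have hub' : ∑ p ∈ PS z y, (1 / (p : ℝ)) * Jr p (a * b) ≤ Real.log (Real.log (a * b : ℕ)) + C := by
    refine le_trans (le_of_eq ?_) hub
    refine sum_congr rfl fun p _ => ?_
    rw [Jr_one_left']
    simp only [x4, Bool.false_eq_true, if_false]
    ring
  -- the values
  have hval : ∀ p ∈ PS z y, (1 / (p : ℝ)) * (ps r t p * ps r' t p) ≤
      (1 / (p : ℝ)) * Jr p (a * b) + (if p ∣ g then 1 / (p : ℝ) else 0) := by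
    intro p hpm
    have hpp := (mem_PS.1 hpm).2
    have hpz := (mem_PS.1 hpm).1.1
    have hodd : Odd p := hpp.odd_of_ne_two (by omega)
    have hx : x4 t p * x4 t p = 1 := x4_sq hodd t
    have hp0 : 0 ≤ 1 / (p : ℝ) := by positivity
    by_cases hpg : p ∣ g
    · rw [if_pos hpg]
      have h1 : Jr p r = 0 := Jr_eq_zero (by omega) (fun h => by
        have := Nat.dvd_gcd (dvd_refl p) (hpg.trans (Nat.gcd_dvd_left r r'))
        rw [h.gcd_eq_one] at this
        exact hpp.one_lt.ne' (Nat.dvd_one.1 this))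
      have h2 := (abs_le.1 (abs_Jr_le p (a * b))).1
      have h3 : (1 / (p : ℝ)) * (ps r t p * ps r' t p) = 0 := by
        unfold ps
        rw [h1]
        ring
      rw [h3]
      nlinarith
    · rw [if_neg hpg, add_zero]
      refine le_of_eq ?_
      congr 1
      have h1 : Jr p r = Jr p g * Jr p a := by
        rw [ha, Jr_mul_right _ hg0.ne' ha0.ne']
      have h2 : Jr p r' = Jr p g * Jr p b := by
        rw [hb, Jr_mul_right _ hg0.ne' hb0.ne']
      have h3 : Jr p g * Jr p g = 1 := Jr_sq ((hpp.coprime_iff_not_dvd).2 hpg)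
      rw [Jr_mul_right _ ha0.ne' hb0.ne']
      unfold ps
      rw [h1, h2]
      calc Jr p g * Jr p a * x4 t p * (Jr p g * Jr p b * x4 t p) =
          (Jr p g * Jr p g) * (x4 t p * x4 t p) * (Jr p a * Jr p b) := by ring
        _ = _ := by rw [h3, hx]; ring
  have hgZ : g ≤ Z := (Nat.le_of_dvd hr1 (Nat.gcd_dvd_left r r')).trans hrZ
  have hz0 : (0 : ℝ) < z := by exact_mod_cast (by omega : 0 < z)
  have hsumg : ∑ p ∈ PS z y, (if p ∣ g then 1 / (p : ℝ) else 0) ≤ 2 * Real.log Z / z := by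
    rw [← sum_filter]
    have e1 : ∑ p ∈ (PS z y).filter (fun p => p ∣ g), 1 / (p : ℝ) ≤
        ∑ p ∈ (PS z y).filter (fun p => p ∣ g), 1 / (z : ℝ) := by
      refine sum_le_sum fun p hpm => ?_
      have hpz := (mem_PS.1 (mem_filter.1 hpm).1).1.1
      exact one_div_le_one_div_of_le hz0 (by exact_mod_cast hpz.le)
    rw [sum_const, nsmul_eq_mul] at e1
    have e2 : ((PS z y).filter (fun p => p ∣ g)).card ≤ g.primeFactors.card := by
      apply card_le_card
      intro p hpm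
      rw [mem_filter] at hpm
      exact Nat.mem_primeFactors.2 ⟨(mem_PS.1 hpm.1).2, hpm.2, hg0.ne'⟩
    have e3 := card_pf_le hg0.ne'
    have e4 : Real.log g ≤ Real.log Z :=
      Real.log_le_log (by exact_mod_cast hg0) (by exact_mod_cast hgZ)
    have e5 : (((PS z y).filter (fun p => p ∣ g)).card : ℝ) ≤ 2 * Real.log Z := by
      have : (((PS z y).filter (fun p => p ∣ g)).card : ℝ) ≤ g.primeFactors.card := by
        exact_mod_cast e2
      linarith
    have e6 : 0 ≤ 1 / (z : ℝ) := by positivity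
    calc _ ≤ (((PS z y).filter (fun p => p ∣ g)).card : ℝ) * (1 / (z : ℝ)) := e1
      _ ≤ 2 * Real.log Z * (1 / (z : ℝ)) := mul_le_mul_of_nonneg_right e5 e6
      _ = _ := by ring
  have hll : Real.log (Real.log (a * b : ℕ)) ≤ Real.log (2 * Real.log Z) := by
    have e1 : 0 < Real.log ((a * b : ℕ) : ℝ) := Real.log_pos (by exact_mod_cast hab1)
    refine Real.log_le_log e1 ?_
    have e2 : ((a * b : ℕ) : ℝ) ≤ (Z : ℝ) ^ 2 := by
      have h1 : a ≤ r := Nat.le_of_dvd hr1 ⟨g, by rw [ha]; ring⟩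
      have h2 : b ≤ r' := Nat.le_of_dvd hr1' ⟨g, by rw [hb]; ring⟩
      have : a * b ≤ Z ^ 2 := by
        rw [sq]
        exact Nat.mul_le_mul (h1.trans hrZ) (h2.trans hrZ')
      exact_mod_cast this
    have e3 := Real.log_le_log (by exact_mod_cast (by omega : 0 < a * b)) e2
    rw [Real.log_pow] at e3
    exact_mod_cast e3
  have := le_abs_self C
  have htot := sum_le_sum hval
  rw [sum_add_distrib] at htot
  linarith

/-- the number of the exceptional characters is bounded -/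
lemma exc (g : ℕ → ℝ) (e Cg : ℝ) (he : 0 < e) (z : ℕ) (hz : 2 ≤ z)
    (hg1 : ∀ p, p.Prime → z < p → |g p| ≤ 1 / p)
    (hg2 : ∀ y : ℕ, z < y → ∑ p ∈ PS z y, |g p| ≤ e * Real.log (Real.log y) + Cg)
    (A M : ℕ) (hzA : 128 * (M * (A : ℝ)) ≤ z * e) :
    ∃ n y0 : ℕ, ∀ y, y0 ≤ y → z < y → ∀ t : Bool, ∀ S : Finset ℕ,
      (∀ r ∈ S, 1 ≤ r ∧ r ≤ VV A (Real.log y) ^ M ∧ Squarefree r ∧
        (∀ p : ℕ, p.Prime → p ∣ r → z < p) ∧
        e / 2 * Real.log (Real.log y) < ∑ p ∈ PS z y, g p * ps r t p) → S.card ≤ n := by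
  obtain ⟨C0, hC0, hpair⟩ := pair_bound z hz
  obtain ⟨CM, hCM0, hCM⟩ := Pool.Agent.W655.RK.mertens
  obtain ⟨n, hn⟩ : ∃ n : ℕ, 8 / e ≤ n := ⟨⌈8 / e⌉₊, Nat.le_ceil _⟩
  have hne : 8 ≤ n * e := by rwa [div_le_iff₀ he] at hn
  have hz0 : (0 : ℝ) < z := by exact_mod_cast (by omega : 0 < z)
  -- constants
  obtain ⟨C1, hC1⟩ : ∃ C1 : ℝ, ∀ l : ℝ, 1 ≤ l →
      Real.log (2 * Real.log ((VV A l ^ M : ℕ) : ℝ)) + 2 * Real.log ((VV A l ^ M : ℕ) : ℝ) / z + C0 ≤
        C1 + e / 32 * Real.log l := by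
    set ε : ℝ := e / (128 * (M * A + 1)) with hε
    have hMA : (0 : ℝ) ≤ M * A := by positivity
    have hε0 : 0 < ε := by positivity
    refine ⟨ε * (4 * (M * 2)) + |Real.log ε| + 4 * (M * 2) + C0, fun l hl => ?_⟩
    have hL : 0 ≤ Real.log l := Real.log_nonneg hl
    have hVl : Real.log (VV A l) ≤ 2 + A * Real.log l := by
      have h0 : (0 : ℝ) < VV A l := by
        have := three_le_VV A l
        exact_mod_cast (by omega : 0 < VV A l)
      have h1 : Real.log (VV A l) ≤ Real.log 5 + A * Real.log l := by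
        calc Real.log (VV A l) ≤ Real.log (5 * l ^ A) := Real.log_le_log h0 (VV_le hl)
          _ = Real.log 5 + A * Real.log l := by
            rw [Real.log_mul (by norm_num) (by positivity), Real.log_pow]
      have h2 : Real.log 5 ≤ 2 := by
        rw [Real.log_le_iff_le_exp (by norm_num)]
        have h := Real.exp_one_gt_d9
        have h2 : Real.exp 2 = Real.exp 1 * Real.exp 1 := by rw [← Real.exp_add]; norm_num
        rw [h2]
        nlinarith
      linarith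
    have hZ : Real.log ((VV A l ^ M : ℕ) : ℝ) ≤ M * (2 + A * Real.log l) := by
      push_cast
      rw [Real.log_pow]
      exact mul_le_mul_of_nonneg_left hVl (Nat.cast_nonneg M)
    have hZ0 : 0 ≤ Real.log ((VV A l ^ M : ℕ) : ℝ) := Real.log_natCast_nonneg _
    -- the logarithm of the logarithm
    have h1 : Real.log (2 * Real.log ((VV A l ^ M : ℕ) : ℝ)) ≤
        ε * (2 * Real.log ((VV A l ^ M : ℕ) : ℝ)) + |Real.log ε| := by
      rcases hZ0.eq_or_lt with h | h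
      · rw [← h]
        simp only [mul_zero, Real.log_zero, zero_add]
        exact abs_nonneg _
      · have h2 : Real.log (ε * (2 * Real.log ((VV A l ^ M : ℕ) : ℝ))) ≤
            ε * (2 * Real.log ((VV A l ^ M : ℕ) : ℝ)) - 1 :=
          Real.log_le_sub_one_of_pos (by positivity)
        rw [Real.log_mul hε0.ne' (by positivity)] at h2
        have := neg_le_abs (Real.log ε)
        linarith
    have h2 : ε * (2 * Real.log ((VV A l ^ M : ℕ) : ℝ)) ≤
        ε * (4 * (M * 2)) + e / 64 * Real.log l := by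
      have h3 : ε * (2 * Real.log ((VV A l ^ M : ℕ) : ℝ)) ≤ ε * (2 * (M * (2 + A * Real.log l))) :=
        mul_le_mul_of_nonneg_left (by linarith) hε0.le
      have h4 : ε * (M * A) ≤ e / 128 := by
        rw [hε, div_mul_eq_mul_div, div_le_div_iff₀ (by positivity) (by norm_num)]
        nlinarith
      have h5 := mul_le_mul_of_nonneg_right h4 hL
      have h6 : 0 ≤ ε * (M * 2) := by positivity
      calc _ ≤ ε * (2 * (M * (2 + A * Real.log l))) := h3
        _ = 2 * (ε * (M * 2)) + 2 * (ε * (M * A) * Real.log l) := by ring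
        _ ≤ 4 * (ε * (M * 2)) + 2 * (e / 128 * Real.log l) := by linarith
        _ = _ := by ring
    have h3 : 2 * Real.log ((VV A l ^ M : ℕ) : ℝ) / z ≤ 4 * (M * 2) + e / 64 * Real.log l := by
      rw [div_le_iff₀ hz0]
      have h4 : 2 * Real.log ((VV A l ^ M : ℕ) : ℝ) ≤ 2 * (M * 2) + 2 * (M * A) * Real.log l := by
        linarith
      have h5 : 2 * (M * (A : ℝ)) * Real.log l ≤ e / 64 * z * Real.log l := by
        apply mul_le_mul_of_nonneg_right _ hL
        linarith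
      have h6 : 2 * ((M : ℝ) * 2) ≤ 4 * (M * 2) * z := by
        have h7 : (1 : ℝ) ≤ z := by exact_mod_cast (by omega : 1 ≤ z)
        have h8 : (0 : ℝ) ≤ M * 2 := by positivity
        nlinarith
      calc _ ≤ 2 * (M * 2) + 2 * (M * A) * Real.log l := h4
        _ ≤ 4 * (M * 2) * z + e / 64 * z * Real.log l := add_le_add h6 h5
        _ = _ := by ring
    linarith
  set K1 : ℝ := n * CM + n ^ 2 * |C1| with hK1
  obtain ⟨y0, hy0⟩ : ∃ y0 : ℕ, ∀ y : ℕ, y0 ≤ y →
      (8 / e * |Cg| + 8 * K1 + 1) ≤ Real.log (Real.log y) := by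
    have ht : Filter.Tendsto (fun y : ℕ => Real.log (Real.log y)) Filter.atTop Filter.atTop :=
      Real.tendsto_log_atTop.comp (Real.tendsto_log_atTop.comp tendsto_natCast_atTop_atTop)
    exact Filter.eventually_atTop.1 (ht.eventually_ge_atTop _)
  refine ⟨n, y0, fun y hy hzy t S hS => ?_⟩
  by_contra hcard
  push Not at hcard
  obtain ⟨S', hS'S, hS'c⟩ := exists_subset_card_eq hcard.le
  set l := Real.log y with hl
  set Λ := Real.log l with hΛ
  have hl1 : 1 ≤ l := one_le_log hz hzy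
  have hΛ0 := hy0 y hy
  have hCg0 := abs_nonneg Cg
  have hK10 : 0 ≤ K1 := by positivity
  have hn0 : (0 : ℝ) ≤ n := Nat.cast_nonneg n
  have hn1 : (1 : ℝ) ≤ n := by
    have : 0 < (n : ℝ) := by
      rcases hn0.eq_or_lt with h | h
      · rw [← h] at hne
        linarith
      · exact h
    exact_mod_cast Nat.one_le_iff_ne_zero.2 (by
      rintro rfl
      simp at this)
  have h8e : 0 ≤ 8 / e * |Cg| := by positivity
  have hΛ1 : 1 ≤ Λ := by linarith
  have hΛ2 : |Cg| ≤ e / 8 * Λ := by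
    have h1 : 8 / e * |Cg| ≤ Λ := by linarith
    have h2 := mul_le_mul_of_nonneg_left h1 (by positivity : 0 ≤ e / 8)
    have h3 : e / 8 * (8 / e * |Cg|) = |Cg| := by
      field_simp
    rw [h3] at h2
    exact h2
  have hΛ3 : K1 ≤ n / 8 * Λ := by
    have h1 : 8 * K1 ≤ Λ := by linarith
    nlinarith
  -- the sum over the exceptional characters
  set X : ℕ → ℝ := fun p => ∑ r ∈ S', ps r t p with hX
  have h1 : n * (e / 2 * Λ) ≤ ∑ p ∈ PS z y, |g p| * |X p| := by
    have e1 : ∑ r ∈ S', (e / 2 * Λ) ≤ ∑ r ∈ S', ∑ p ∈ PS z y, g p * ps r t p :=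
      sum_le_sum fun r hr => (hS r (hS'S hr)).2.2.2.2.le
    rw [sum_const, hS'c, nsmul_eq_mul, sum_comm] at e1
    refine e1.trans (sum_le_sum fun p _ => ?_)
    rw [← mul_sum, ← abs_mul]
    exact le_abs_self _
  have h2 : (∑ p ∈ PS z y, |g p| * |X p|) ^ 2 ≤
      (∑ p ∈ PS z y, |g p|) * ∑ p ∈ PS z y, |g p| * X p ^ 2 := by
    refine sum_sq_le_sum_mul_sum_of_sq_le_mul _ (fun p _ => abs_nonneg _)
      (fun p _ => by positivity) fun p _ => le_of_eq ?_
    rw [mul_pow, sq_abs (X p)]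
    ring
  have h3 : ∑ p ∈ PS z y, |g p| * X p ^ 2 ≤ ∑ p ∈ PS z y, (1 / (p : ℝ)) * X p ^ 2 := by
    refine sum_le_sum fun p hp => mul_le_mul_of_nonneg_right ?_ (sq_nonneg _)
    exact hg1 p (mem_PS.1 hp).2 (mem_PS.1 hp).1.1
  have h4 : ∑ p ∈ PS z y, (1 / (p : ℝ)) * X p ^ 2 =
      ∑ r ∈ S', ∑ r' ∈ S', ∑ p ∈ PS z y, (1 / (p : ℝ)) * (ps r t p * ps r' t p) := by
    have e1 : ∀ p ∈ PS z y, (1 / (p : ℝ)) * X p ^ 2 =
        ∑ r ∈ S', ∑ r' ∈ S', (1 / (p : ℝ)) * (ps r t p * ps r' t p) := by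
      intro p _
      rw [sq, hX, sum_mul_sum, mul_sum]
      refine sum_congr rfl fun r _ => ?_
      rw [mul_sum]
    rw [sum_congr rfl e1, sum_comm]
    refine sum_congr rfl fun r _ => ?_
    rw [sum_comm]
  have h5 : ∀ r ∈ S', ∀ r' ∈ S', ∑ p ∈ PS z y, (1 / (p : ℝ)) * (ps r t p * ps r' t p) ≤
      (if r = r' then Λ + CM else 0) + (|C1| + e / 32 * Λ) := by
    intro r hr r' hr'
    have hr2 := hS r (hS'S hr)
    have hr2' := hS r' (hS'S hr')
    have hnn : 0 ≤ |C1| + e / 32 * Λ := by positivity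
    by_cases hrr : r = r'
    · rw [if_pos hrr]
      have e1 : ∑ p ∈ PS z y, (1 / (p : ℝ)) * (ps r t p * ps r' t p) ≤
          ∑ p ∈ PS z y, (1 : ℝ) / p := by
        refine sum_le_sum fun p _ => mul_le_of_le_one_right (by positivity) ?_
        have := abs_ps r t p
        have h' := abs_ps r' t p
        have e2 : |ps r t p * ps r' t p| ≤ 1 := by
          rw [abs_mul]
          exact mul_le_one₀ this (abs_nonneg _) h'
        exact (abs_le.1 e2).2
      have e2 := hCM z y (by omega)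
      linarith
    · rw [if_neg hrr, zero_add]
      have e1 := hpair y r r' (VV A l ^ M) t hzy hrr hr2.1 hr2'.1 hr2.2.1 hr2'.2.1 hr2.2.2.1
        hr2'.2.2.1 hr2.2.2.2.1 hr2'.2.2.2.1
      have e2 := hC1 l hl1
      have e3 := le_abs_self C1
      linarith
  have h6 : ∑ r ∈ S', ∑ r' ∈ S', ∑ p ∈ PS z y, (1 / (p : ℝ)) * (ps r t p * ps r' t p) ≤
      n * (Λ + CM) + n ^ 2 * (|C1| + e / 32 * Λ) := by
    refine (sum_le_sum fun r hr => sum_le_sum fun r' hr' => h5 r hr r' hr').trans (le_of_eq ?_)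
    have e1 : ∀ r ∈ S', ∑ r' ∈ S', ((if r = r' then Λ + CM else 0) + (|C1| + e / 32 * Λ)) =
        (Λ + CM) + n * (|C1| + e / 32 * Λ) := by
      intro r hr
      rw [sum_add_distrib, sum_ite_eq, if_pos hr, sum_const, hS'c, nsmul_eq_mul]
    rw [sum_congr rfl e1, sum_const, hS'c, nsmul_eq_mul]
    ring
  have h7 : ∑ p ∈ PS z y, |g p| ≤ e * Λ + |Cg| := by
    have := hg2 y hzy
    have := le_abs_self Cg
    linarith
  have h8 : 0 ≤ ∑ p ∈ PS z y, |g p| := sum_nonneg fun _ _ => abs_nonneg _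
  have h9 : ∑ p ∈ PS z y, |g p| * X p ^ 2 ≤ n * (Λ + CM) + n ^ 2 * (|C1| + e / 32 * Λ) := by
    rw [h4] at h3
    exact h3.trans h6
  have h10 : 0 ≤ ∑ p ∈ PS z y, |g p| * X p ^ 2 := sum_nonneg fun _ _ => by positivity
  have h11 : (n * (e / 2 * Λ)) ^ 2 ≤
      (e * Λ + |Cg|) * (n * (Λ + CM) + n ^ 2 * (|C1| + e / 32 * Λ)) := by
    have e1 : (n * (e / 2 * Λ)) ^ 2 ≤ (∑ p ∈ PS z y, |g p| * |X p|) ^ 2 :=
      pow_le_pow_left₀ (by positivity) h1 2
    exact e1.trans (h2.trans (mul_le_mul h7 h9 h10 (by positivity)))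
  -- the contradiction
  set x : ℝ := n * e with hx
  have h12 : (e * Λ + |Cg|) ≤ 9 / 8 * (e * Λ) := by linarith
  have h13 : n * (Λ + CM) + n ^ 2 * (|C1| + e / 32 * Λ) ≤ (9 / 8 * n + n * x / 32) * Λ := by
    have e1 : n * (Λ + CM) + n ^ 2 * (|C1| + e / 32 * Λ) = K1 + (n + n * x / 32) * Λ := by
      rw [hK1, hx]; ring
    rw [e1]
    nlinarith
  have h14 : 0 ≤ n * (Λ + CM) + n ^ 2 * (|C1| + e / 32 * Λ) := by positivity
  have h15 : (n * (e / 2 * Λ)) ^ 2 ≤ 9 / 8 * (e * Λ) * ((9 / 8 * n + n * x / 32) * Λ) :=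
    h11.trans (mul_le_mul h12 h13 h14 (by positivity))
  have h16 : x ^ 2 / 4 * Λ ^ 2 ≤ (81 / 64 * x + 9 / 256 * x ^ 2) * Λ ^ 2 := by
    have e1 : (n * (e / 2 * Λ)) ^ 2 = x ^ 2 / 4 * Λ ^ 2 := by rw [hx]; ring
    have e2 : 9 / 8 * (e * Λ) * ((9 / 8 * n + n * x / 32) * Λ) =
        (81 / 64 * x + 9 / 256 * x ^ 2) * Λ ^ 2 := by rw [hx]; ring
    rwa [e1, e2] at h15
  have h17 : x ^ 2 / 4 ≤ 81 / 64 * x + 9 / 256 * x ^ 2 :=
    le_of_mul_le_mul_right h16 (by positivity)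
  nlinarith

end Pool.Agent.L0h5.AG
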