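import Pool.Agent.L0h5.AG.A1

/-!
# Sums of products of Jacobi symbols with general prime weights: two linked large variables
-/

set_option autoImplicit false

namespace Pool.Agent.L0h5.AG

open Finset Pool.Agent.W262.RK Pool.Agent.W262.RK.AT

variable {ι : Type} [Fintype ι] [DecidableEq ι]

variable {g : ι → ℕ → ℝ} {e : ι → ℝ} {L : ι → ι → Bool} {c z : ℕ} {C : ℝ}

/-- the summand as a function of two linked variables -/
lemma HG_pair (g : ι → ℕ → ℝ) {i j : ι} (hij : i ≠ j) (hLi : L i i = false)
    (hL1 : L i j = true) (hL2 : L j i = false) {y : ℕ} {e : ι → ℕ}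
    (_he : ∀ b, e b ∈ (PP z y).divisors) :
    ∃ (q : ℝ) (a b : ℕ → ℝ), |q| ≤ ∏ k ∈ (univ.erase i).erase j, |gg g k (e k)| ∧
      (∀ m, |a m| ≤ 1) ∧ (∀ m, |b m| ≤ 1) ∧
      ∀ m ∈ (PP z y).divisors, ∀ n ∈ (PP z y).divisors,
        HG g L (Function.update (Function.update e j n) i m) =
          q * (gg g i m * a m) * (gg g j n * b n) * Jr m n := by
  classical
  have hjm : j ∈ univ.erase i := mem_erase.2 ⟨hij.symm, mem_univ j⟩
  set q : ℝ := if (∀ a b, a ≠ i → b ≠ i → a ≠ j → b ≠ j → a ≠ b → (e a).Coprime (e b)) then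
    ∏ k ∈ (univ.erase i).erase j, gg g k (e k) else 0 with hq
  set X' : ℕ → ℝ := fun m => ∏ b ∈ (univ.erase i).erase j,
    (if L i b then Jr m (e b) else 1) * (if L b i then Jr (e b) m else 1) with hX'
  set a : ℕ → ℝ := fun m => if (∀ b, b ≠ i → b ≠ j → m.Coprime (e b)) then X' m else 0
    with ha
  set b : ℕ → ℝ := fun n => if (∀ b, b ≠ i → b ≠ j → n.Coprime (e b)) then
    RR L (fun _ => 1) i (Function.update e j n) else 0 with hb
  refine ⟨q, a, b, ?_, ?_, ?_, ?_⟩
  · rw [hq]
    split_ifs
    · rw [abs_prod]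
    · simpa using prod_nonneg fun k _ => abs_nonneg _
  · intro m
    rw [ha]
    simp only
    split_ifs
    · rw [hX']
      apply abs_prod_le_one
      intro k _
      rw [abs_mul]
      exact mul_le_one₀ (abs_ite_Jr _ _ _) (abs_nonneg _) (abs_ite_Jr _ _ _)
    · simp
  · intro n
    rw [hb]
    simp only
    split_ifs
    · exact abs_RR_le _ _ _ _
    · simp
  · intro m hm n hn
    have hm0 := dv_ne_zero hm
    have hn0 := dv_ne_zero hn
    by_cases hmn : m.Coprime n
    · have hXX : XX L i (Function.update e j n) m = Jr m n * X' m := by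
        unfold XX
        rw [← mul_prod_erase _ _ hjm, Function.update_self, hL1, hL2]
        simp only [if_true, Bool.false_eq_true, if_false, mul_one]
        rw [hX']
        congr 1
        apply prod_congr rfl
        intro k hk
        rw [Function.update_of_ne (mem_erase.1 hk).1]
      have hgw : ∏ k, gg g k (Function.update (Function.update e j n) i m k) =
          gg g i m * (gg g j n * ∏ k ∈ (univ.erase i).erase j, gg g k (e k)) := by
        rw [← mul_prod_erase univ _ (mem_univ i), Function.update_self]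
        congr 1
        rw [← mul_prod_erase _ _ hjm, Function.update_of_ne hij.symm, Function.update_self]
        congr 1
        apply prod_congr rfl
        intro k hk
        have h1 := mem_erase.1 hk
        rw [Function.update_of_ne (mem_erase.1 h1.2).1, Function.update_of_ne h1.1]
      have hcond : (∀ k l, k ≠ l → (Function.update (Function.update e j n) i m k).Coprime
          (Function.update (Function.update e j n) i m l)) ↔
          (∀ a b, a ≠ i → b ≠ i → a ≠ j → b ≠ j → a ≠ b → (e a).Coprime (e b)) ∧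
          (∀ b, b ≠ i → b ≠ j → m.Coprime (e b)) ∧ (∀ b, b ≠ i → b ≠ j → n.Coprime (e b)) := by
        constructor
        · intro h
          refine ⟨?_, ?_, ?_⟩
          · intro k l h1 h2 h3 h4 h5
            have := h k l h5
            rwa [Function.update_of_ne h1, Function.update_of_ne h3, Function.update_of_ne h2,
              Function.update_of_ne h4] at this
          · intro k h1 h2
            have := h i k h1.symm
            rwa [Function.update_self, Function.update_of_ne h1, Function.update_of_ne h2] at this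
          · intro k h1 h2
            have := h j k h2.symm
            rwa [Function.update_of_ne hij.symm, Function.update_self, Function.update_of_ne h1,
              Function.update_of_ne h2] at this
        · rintro ⟨h1, h2, h3⟩ k l hkl
          by_cases hk : k = i
          · subst hk
            rw [Function.update_self, Function.update_of_ne hkl.symm]
            by_cases hl : l = j
            · subst hl
              rw [Function.update_self]
              exact hmn
            · rw [Function.update_of_ne hl]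
              exact h2 l hkl.symm hl
          · rw [Function.update_of_ne hk]
            by_cases hl : l = i
            · subst hl
              rw [Function.update_self]
              by_cases hk' : k = j
              · subst hk'
                rw [Function.update_self]
                exact hmn.symm
              · rw [Function.update_of_ne hk']
                exact (h2 k hk hk').symm
            · rw [Function.update_of_ne hl]
              by_cases hk' : k = j
              · subst hk'
                rw [Function.update_self, Function.update_of_ne hkl.symm]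
                exact h3 l hl hkl.symm
              · rw [Function.update_of_ne hk']
                by_cases hl' : l = j
                · subst hl'
                  rw [Function.update_self]
                  exact (h3 k hk hk').symm
                · rw [Function.update_of_ne hl']
                  exact h1 k l hk hl hk' hl' hkl
      unfold HG
      rw [sym_update L _ i hLi, hXX, hgw, Jr_one_left']
      by_cases c1 : ∀ a b, a ≠ i → b ≠ i → a ≠ j → b ≠ j → a ≠ b → (e a).Coprime (e b)
      · by_cases c2 : ∀ b, b ≠ i → b ≠ j → m.Coprime (e b)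
        · by_cases c3 : ∀ b, b ≠ i → b ≠ j → n.Coprime (e b)
          · rw [if_pos (hcond.2 ⟨c1, c2, c3⟩), hq, if_pos c1, ha, hb]
            simp only
            rw [if_pos c2, if_pos c3]
            ring
          · rw [if_neg (fun h => c3 (hcond.1 h).2.2), hb]
            simp only
            rw [if_neg c3]
            ring
        · rw [if_neg (fun h => c2 (hcond.1 h).2.1), ha]
          simp only
          rw [if_neg c2]
          ring
      · rw [if_neg (fun h => c1 (hcond.1 h).1), hq, if_neg c1]
        ring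
    · rw [Jr_eq_zero hn0 hmn, mul_zero]
      unfold HG
      rw [if_neg]
      intro h
      have := h i j hij
      rw [Function.update_self, Function.update_of_ne hij.symm, Function.update_self] at this
      exact hmn this

lemma pair_inner (hB : Bw g e c z C) {C2 : ℝ} {E2 : ℕ} (h2 : BW C2 E2) {i j : ι} (hij : i ≠ j)
    (hLi : L i i = false) (hL1 : L i j = true) (hL2 : L j i = false) {y V Y : ℕ} (hV : 2 ≤ V)
    (hVY : V ≤ Y) {d : ι → ℕ} (hd : ∀ b, d b ∈ (PP z y).divisors) :
    |∑ n ∈ lg z y V Y, ∑ m ∈ lg z y V Y,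
        HG g L (Function.update (Function.update d j n) i m)| ≤
      (∏ k ∈ (univ.erase i).erase j, |gg g k (d k)|) *
        (C2 * (Real.log Y) ^ E2 * (V : ℝ) ^ (-(1 / 6 : ℝ))) := by
  classical
  obtain ⟨q, a, b, hq, ha, hb, h⟩ := HG_pair (L := L) g hij hLi hL1 hL2 hd
  have hP0 : 0 ≤ ∏ k ∈ (univ.erase i).erase j, |gg g k (d k)| :=
    prod_nonneg fun k _ => abs_nonneg _
  set a' : ℕ → ℝ := fun m => if m ∈ lg z y V Y then gg g i m * a m else 0 with ha'
  set b' : ℕ → ℝ := fun m => if m ∈ lg z y V Y then gg g j m * b m else 0 with hb'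
  have hsub : lg z y V Y ⊆ Ioc V Y := by
    intro m hm
    rw [mem_Ioc]
    exact (mem_filter.1 hm).2
  have hDv : ∀ m ∈ lg z y V Y, m ∈ (PP z y).divisors := fun m hm => (mem_filter.1 hm).1
  have bd : ∀ (k : ι) (f : ℕ → ℝ), (∀ m, |f m| ≤ 1) → ∀ m,
      |if m ∈ lg z y V Y then gg g k m * f m else 0| ≤ 1 / (m : ℝ) := by
    intro k f hf m
    split_ifs with hm
    · rw [abs_mul]
      exact (mul_le_of_le_one_right (abs_nonneg _) (hf m)).trans
        (abs_gg_le hB k (hDv m hm))
    · simp
  have od : ∀ (k : ι) (f : ℕ → ℝ) (m : ℕ),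
      (if m ∈ lg z y V Y then gg g k m * f m else 0) ≠ 0 → Odd m ∧ Squarefree m := by
    intro k f m hm
    by_cases h1 : m ∈ lg z y V Y
    · exact ⟨dv_odd hB.z2 (hDv m h1), dv_squarefree (hDv m h1)⟩
    · rw [if_neg h1] at hm
      exact absurd rfl hm
  have hmain := h2 V Y hV hVY a' b' (bd i a ha) (bd j b hb) (od i a) (od j b)
  have heq : ∑ n ∈ lg z y V Y, ∑ m ∈ lg z y V Y,
      HG g L (Function.update (Function.update d j n) i m) =
      q * ∑ m ∈ Ioc V Y, ∑ n ∈ Ioc V Y, a' m * b' n * Jr m n := by
    rw [sum_comm]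
    have e1 : ∑ m ∈ Ioc V Y, ∑ n ∈ Ioc V Y, a' m * b' n * Jr m n =
        ∑ m ∈ lg z y V Y, ∑ n ∈ lg z y V Y, a' m * b' n * Jr m n := by
      rw [← sum_subset hsub]
      · apply sum_congr rfl
        intro m _
        rw [← sum_subset hsub]
        intro n _ hn
        rw [hb']
        simp only
        rw [if_neg hn]
        ring
      · intro m _ hm
        apply sum_eq_zero
        intro n _
        rw [ha']
        simp only
        rw [if_neg hm]
        ring
    rw [e1, mul_sum]
    apply sum_congr rfl
    intro m hm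
    rw [mul_sum]
    apply sum_congr rfl
    intro n hn
    rw [h m (hDv m hm) n (hDv n hn), ha', hb']
    simp only
    rw [if_pos hm, if_pos hn]
    ring
  rw [heq, abs_mul]
  exact mul_le_mul hq hmain (abs_nonneg _) hP0

/-- two linked large variables -/
lemma pair_case (hB : Bw g e c z C) {C2 : ℝ} {E2 : ℕ} (hC2 : 0 ≤ C2) (h2 : BW C2 E2) {i j : ι}
    (hij : i ≠ j) (hLi : L i i = false) (hL1 : L i j = true) (hL2 : L j i = false)
    {y V Y : ℕ} (hy : z < y) (hV : 2 ≤ V) (hVY : V ≤ Y) {t : ι → Finset ℕ}
    (ht : ∀ b, t b ⊆ (PP z y).divisors) (hti : t i = lg z y V Y) (htj : t j = lg z y V Y) :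
    |∑ d ∈ Fintype.piFinset t, HG g L d| ≤
      (C * Real.log y) ^ (Fintype.card ι) * (C2 * (Real.log Y) ^ E2 * (V : ℝ) ^ (-(1 / 6 : ℝ))) := by
  classical
  have hC0 : 0 ≤ C := zero_le_one.trans hB.C1
  have hly : 1 ≤ Real.log y := one_le_log hB.z2 hy
  have hlY : 0 ≤ Real.log Y := Real.log_natCast_nonneg Y
  rw [sum_update t i, sum_update (Function.update t i {1}) j, Function.update_of_ne hij.symm, hti, htj]
  refine (abs_sum_le_sum_abs _ _).trans ?_
  have hQ : 0 ≤ C2 * (Real.log Y) ^ E2 * (V : ℝ) ^ (-(1 / 6 : ℝ)) := by positivity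
  have hstep : ∀ e ∈ Fintype.piFinset (Function.update (Function.update t i {1}) j {1}),
      |∑ n ∈ lg z y V Y, ∑ m ∈ lg z y V Y,
        HG g L (Function.update (Function.update e j n) i m)| ≤
      (∏ k ∈ univ.erase j, (if k = i then 1 else |gg g k (e k)|)) *
        (C2 * (Real.log Y) ^ E2 * (V : ℝ) ^ (-(1 / 6 : ℝ))) := by
    intro e he
    have he' : ∀ b, e b ∈ (PP z y).divisors := by
      intro b
      have := Fintype.mem_piFinset.1 he b
      by_cases hb : b = j
      · subst hb
        rw [Function.update_self, mem_singleton] at this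
        rw [this]
        exact one_mem_dv z y
      · rw [Function.update_of_ne hb] at this
        by_cases hb' : b = i
        · subst hb'
          rw [Function.update_self, mem_singleton] at this
          rw [this]
          exact one_mem_dv z y
        · rw [Function.update_of_ne hb'] at this
          exact ht b this
    refine (pair_inner hB h2 hij hLi hL1 hL2 hV hVY he').trans ?_
    apply mul_le_mul_of_nonneg_right _ hQ
    apply le_of_eq
    have him : i ∈ univ.erase j := mem_erase.2 ⟨hij, mem_univ i⟩
    rw [← mul_prod_erase _ _ him, if_pos rfl, one_mul]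
    have : (univ.erase i).erase j = (univ.erase j).erase i := by
      ext k
      simp only [mem_erase, mem_univ, and_true]
      tauto
    rw [this]
    apply prod_congr rfl
    intro k hk
    rw [if_neg (mem_erase.1 hk).1]
  refine (sum_le_sum hstep).trans ?_
  rw [← sum_mul, sum_others j (Function.update t i {1}) (fun k m => if k = i then 1 else |gg g k m|)]
  apply mul_le_mul_of_nonneg_right _ hQ
  have hCl : 1 ≤ C * Real.log y := by nlinarith [hB.C1]
  have hf : ∀ k ∈ univ.erase j, ∑ m ∈ Function.update t i {1} k,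
      (if k = i then 1 else |gg g k m|) ≤ C * Real.log y := by
    intro k _
    by_cases hk : k = i
    · subst hk
      rw [Function.update_self]
      simpa using hCl
    · rw [Function.update_of_ne hk]
      simp only [if_neg hk]
      calc ∑ m ∈ t k, |gg g k m| ≤ ∑ m ∈ (PP z y).divisors, |gg g k m| :=
            sum_le_sum_of_subset_of_nonneg (ht k) fun m _ _ => abs_nonneg _
        _ ≤ ∑ m ∈ (PP z y).divisors, ah g k m := sum_le_sum fun m _ => abs_le_ah g k m
        _ ≤ C * Real.log y := hB.F0 k y hy
  have hf0 : ∀ k ∈ univ.erase j, 0 ≤ ∑ m ∈ Function.update t i {1} k,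
      (if k = i then 1 else |gg g k m|) := by
    intro k _
    apply sum_nonneg
    intro m _
    split_ifs
    · exact zero_le_one
    · exact abs_nonneg _
  calc ∏ k ∈ univ.erase j, ∑ m ∈ Function.update t i {1} k, (if k = i then 1 else |gg g k m|)
      ≤ ∏ k ∈ univ.erase j, (C * Real.log y) := prod_le_prod hf0 hf
    _ = (C * Real.log y) ^ (univ.erase j).card := by rw [prod_const]
    _ ≤ (C * Real.log y) ^ (Fintype.card ι) := by
      apply pow_le_pow_right₀ hCl
      exact (card_le_card (erase_subset _ _)).trans (le_of_eq card_univ)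

/-- every cell -/
lemma cs_any (hB : Bw g e c z C) {y : ℕ} (hy : z < y) (V Y : ℕ) (k : ι) (r : Fin 4) :
    ∑ m ∈ cell z y V Y r, ah g k m ≤ C * Real.log y :=
  (sum_le_sum_of_subset_of_nonneg (cell_sub _ _ _ _ _) fun _ _ _ => ah_nonneg _ _ _).trans
    (hB.F0 k y hy)

/-- the cells of the kinds 0, 1, 2 -/
lemma cs_low (hB : Bw g e c z C) {y : ℕ} (hy : z < y) {V Y : ℕ} (hV : 3 ≤ V) (k : ι) {r : Fin 4}
    (hr : r ≠ 3) : ∑ m ∈ cell z y V Y r, ah g k m ≤
      C * (if r = 2 then (Real.log y) ^ (e k) else Real.log V) := by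
  by_cases h2 : r = 2
  · rw [if_pos h2]
    exact (sum_le_sum_of_subset_of_nonneg (cell_sub _ _ _ _ _) fun _ _ _ => ah_nonneg _ _ _).trans
      (hB.F1 k y hy)
  · rw [if_neg h2]
    have hsub : cell z y V Y r ⊆ (PP z y).divisors.filter (fun d => d ≤ V) := by
      intro m hm
      rw [mem_filter]
      refine ⟨cell_sub _ _ _ _ _ hm, ?_⟩
      have : r = 0 ∨ r = 1 := by
        fin_cases r
        · exact Or.inl rfl
        · exact Or.inr rfl
        · exact absurd rfl h2
        · exact absurd rfl hr
      rcases this with h | h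
      · subst h
        have := cell_zero hm
        omega
      · subst h
        exact (cell_one hm).2
    exact (sum_le_sum_of_subset_of_nonneg hsub fun _ _ _ => ah_nonneg _ _ _).trans
      (hB.F2 k y V hy (by omega))

/-- product of the sums over cells of kinds 0, 1, 2 -/
lemma prod_low (hB : Bw g e c z C) {y : ℕ} (hy : z < y) {V Y : ℕ} (hV : 3 ≤ V) (π : ι → Fin 4)
    (s : Finset ι) (hs : ∀ k ∈ s, π k ≠ 3) :
    ∏ k ∈ s, ∑ m ∈ cell z y V Y (π k), ah g k m ≤
      C ^ (Fintype.card ι) * (Real.log y) ^ (∑ k ∈ s.filter (fun k => π k = 2), e k) *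
        (Real.log V) ^ (Fintype.card ι) := by
  have hC0 : 0 ≤ C := zero_le_one.trans hB.C1
  have hly := one_le_log hB.z2 hy
  have hly0 : 0 < Real.log y := by linarith
  have hlV : 1 ≤ Real.log V := by
    rw [Real.le_log_iff_exp_le (by exact_mod_cast (by omega : 0 < V))]
    have h1 : (3 : ℝ) ≤ V := by exact_mod_cast hV
    have h2 := Real.exp_one_lt_d9
    linarith
  have hcard : s.card ≤ Fintype.card ι := (card_le_card (subset_univ s)).trans (le_of_eq card_univ)
  calc ∏ k ∈ s, ∑ m ∈ cell z y V Y (π k), ah g k m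
      ≤ ∏ k ∈ s, (C * (if π k = 2 then (Real.log y) ^ (e k) else Real.log V)) := by
        apply prod_le_prod
        · intro k _
          exact sum_nonneg fun m _ => ah_nonneg _ _ _
        · intro k hk
          exact cs_low hB hy hV k (hs k hk)
    _ = C ^ s.card * ((∏ k ∈ s.filter (fun k => π k = 2), (Real.log y) ^ (e k)) *
          ∏ k ∈ s.filter (fun k => ¬ π k = 2), Real.log V) := by
        rw [prod_mul_distrib, prod_const, prod_ite]
    _ ≤ C ^ (Fintype.card ι) * ((Real.log y) ^ (∑ k ∈ s.filter (fun k => π k = 2), e k) *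
          (Real.log V) ^ (Fintype.card ι)) := by
        apply mul_le_mul (pow_le_pow_right₀ hB.C1 hcard) _ _ (by positivity)
        · apply mul_le_mul
          · rw [← Real.rpow_sum_of_pos hly0]
          · rw [prod_const]
            exact pow_le_pow_right₀ hlV ((card_filter_le _ _).trans hcard)
          · positivity
          · positivity
        · apply mul_nonneg
          · exact prod_nonneg fun _ _ => by positivity
          · exact prod_nonneg fun _ _ => by positivity
    _ = _ := by ring

/-- a huge variable -/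
lemma tail_case (hB : Bw g e c z C) (A : ℕ) {K : ℝ} (hK : 0 ≤ K) (π : ι → Fin 4) {k : ι}
    (hk : π k = 3) : ∃ C' : ℝ, ∀ y, z < y →
      |∑ d ∈ Fintype.piFinset (fun b => cell z y (VV A (Real.log y)) (YY A (Real.log y)) (π b)),
        HG g L d| ≤ C' * (Real.log y) ^ K := by
  have hC0 : 0 ≤ C := zero_le_one.trans hB.C1
  refine ⟨C ^ (Fintype.card ι + 1) * (Fintype.card ι + 2).factorial, fun y hy => ?_⟩
  have hly := one_le_log hB.z2 hy
  have hly0 : 0 < Real.log y := by linarith
  set l := Real.log y with hl
  set V := VV A l with hV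
  set Y := YY A l with hY
  refine (triv _ _ _).trans ?_
  rw [← mul_prod_erase univ _ (mem_univ k), hk]
  have h2 : ∑ m ∈ cell z y V Y 3, ah g k m ≤ C * Real.exp (-l) * l ^ 2 := by
    have hV3 := three_le_VV A l
    have hVY := VV_le_YY A l
    calc ∑ m ∈ cell z y V Y 3, ah g k m
        ≤ ∑ m ∈ (PP z y).divisors.filter (fun d => Y < d), ah g k m := by
          apply sum_le_sum_of_subset_of_nonneg
          · intro m hm
            rw [mem_filter]
            exact ⟨cell_sub _ _ _ _ _ hm, cell_three hm⟩
          · intro m _ _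
            exact ah_nonneg _ _ _
      _ ≤ C * Real.exp (-(Real.log Y / Real.log y)) * (Real.log y) ^ 2 :=
          hB.F3 k y Y hy (by omega)
      _ ≤ C * Real.exp (-l) * l ^ 2 := by
          apply mul_le_mul_of_nonneg_right _ (by positivity)
          apply mul_le_mul_of_nonneg_left _ hC0
          apply Real.exp_le_exp.2
          rw [neg_le_neg_iff, le_div_iff₀ hly0]
          have := log_YY_ge A l
          nlinarith
  have h3 : ∏ b ∈ univ.erase k, ∑ m ∈ cell z y V Y (π b), ah g b m ≤
      (C * l) ^ (Fintype.card ι) := by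
    have hCl : 1 ≤ C * l := by nlinarith [hB.C1]
    calc _ ≤ ∏ b ∈ univ.erase k, (C * l) := by
          apply prod_le_prod
          · intro b _
            exact sum_nonneg fun m _ => ah_nonneg _ _ _
          · intro b _
            exact cs_any hB hy V Y b (π b)
      _ = (C * l) ^ (univ.erase k).card := by rw [prod_const]
      _ ≤ _ := by
          apply pow_le_pow_right₀ hCl
          exact (card_le_card (erase_subset _ _)).trans (le_of_eq card_univ)
  have h4 : 1 ≤ l ^ K := Real.one_le_rpow hly hK
  have h5 := exp_neg_pow (Fintype.card ι + 2) hly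
  calc _ ≤ C * Real.exp (-l) * l ^ 2 * (C * l) ^ (Fintype.card ι) := by
        apply mul_le_mul h2 h3 _ (by positivity)
        exact prod_nonneg fun b _ => sum_nonneg fun m _ => ah_nonneg _ _ _
    _ = C ^ (Fintype.card ι + 1) * (Real.exp (-l) * l ^ (Fintype.card ι + 2)) := by ring
    _ ≤ C ^ (Fintype.card ι + 1) * (Fintype.card ι + 2).factorial :=
        mul_le_mul_of_nonneg_left h5 (by positivity)
    _ ≤ _ := le_mul_of_one_le_right (by positivity) h4

/-- two linked large variables -/
lemma link_case (hB : Bw g e c z C) {C2 : ℝ} {E2 : ℕ} (hC2 : 0 ≤ C2) (h2 : BW C2 E2)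
    (hL : ∀ i, L i i = false) {A : ℕ} (hA : 6 * (Fintype.card ι + 2 * E2) ≤ A) {K : ℝ} (hK : 0 ≤ K)
    (π : ι → Fin 4) {i j : ι} (hi : π i = 2) (hj : π j = 2) (hij : L i j ≠ L j i) :
    ∃ C' : ℝ, ∀ y, z < y →
      |∑ d ∈ Fintype.piFinset (fun b => cell z y (VV A (Real.log y)) (YY A (Real.log y)) (π b)),
        HG g L d| ≤ C' * (Real.log y) ^ K := by
  have hC0 : 0 ≤ C := zero_le_one.trans hB.C1
  refine ⟨C ^ (Fintype.card ι) * C2 * (A + 3) ^ E2, fun y hy => ?_⟩
  have hly := one_le_log hB.z2 hy
  have hly0 : 0 < Real.log y := by linarith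
  set l := Real.log y with hl
  set V := VV A l with hV
  set Y := YY A l with hY
  have hV3 : 3 ≤ V := three_le_VV A l
  have hVY : V ≤ Y := VV_le_YY A l
  have hne : i ≠ j := by rintro rfl; exact hij rfl
  have hc2 : ∀ b, π b = 2 → cell z y V Y (π b) = lg z y V Y := fun b hb => by
    rw [hb]; exact cell_two (by omega)
  have hmain : |∑ d ∈ Fintype.piFinset (fun b => cell z y V Y (π b)), HG g L d| ≤
      (C * l) ^ (Fintype.card ι) * (C2 * (Real.log Y) ^ E2 * (V : ℝ) ^ (-(1 / 6 : ℝ))) := by
    rcases h1 : L i j with _ | _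
    · rcases h1' : L j i with _ | _
      · rw [h1, h1'] at hij; exact absurd rfl hij
      · exact pair_case hB hC2 h2 hne.symm (hL j) h1' h1 hy (by omega) hVY
          (fun b => cell_sub _ _ _ _ _) (hc2 j hj) (hc2 i hi)
    · rcases h1' : L j i with _ | _
      · exact pair_case hB hC2 h2 hne (hL i) h1 h1' hy (by omega) hVY
          (fun b => cell_sub _ _ _ _ _) (hc2 i hi) (hc2 j hj)
      · rw [h1, h1'] at hij; exact absurd rfl hij
  refine hmain.trans ?_
  have h3 : Real.log Y ≤ (A + 3) * l ^ 2 := log_YY_le hly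
  have h3' : 0 ≤ Real.log Y := Real.log_natCast_nonneg Y
  have h4 : (V : ℝ) ^ (-(1 / 6 : ℝ)) ≤ (l ^ (Fintype.card ι + 2 * E2))⁻¹ := by
    have h5 : l ^ (6 * (Fintype.card ι + 2 * E2)) ≤ V :=
      (pow_le_pow_right₀ hly hA).trans (VV_ge A l)
    have h6 : (0 : ℝ) < l ^ (6 * (Fintype.card ι + 2 * E2)) := by positivity
    have h7 : (V : ℝ) ^ (-(1 / 6 : ℝ)) ≤ (l ^ (6 * (Fintype.card ι + 2 * E2))) ^ (-(1 / 6 : ℝ)) :=
      Real.rpow_le_rpow_of_nonpos h6 h5 (by norm_num)
    refine h7.trans (le_of_eq ?_)
    rw [← Real.rpow_natCast l, ← Real.rpow_mul hly0.le, ← Real.rpow_natCast l,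
      ← Real.rpow_neg hly0.le]
    congr 1
    push_cast
    ring
  have h8 : (1 : ℝ) ≤ l ^ K := Real.one_le_rpow hly hK
  calc (C * l) ^ (Fintype.card ι) * (C2 * (Real.log Y) ^ E2 * (V : ℝ) ^ (-(1 / 6 : ℝ)))
      ≤ (C * l) ^ (Fintype.card ι) * (C2 * ((A + 3) * l ^ 2) ^ E2 *
          (l ^ (Fintype.card ι + 2 * E2))⁻¹) := by
        apply mul_le_mul_of_nonneg_left _ (by positivity)
        apply mul_le_mul _ h4 (by positivity) (by positivity)
        exact mul_le_mul_of_nonneg_left (pow_le_pow_left₀ h3' h3 _) hC2
    _ = C ^ (Fintype.card ι) * C2 * (A + 3) ^ E2 := by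
        rw [mul_pow, mul_pow, ← pow_mul, pow_add]
        field_simp
    _ ≤ _ := le_mul_of_one_le_right (by positivity) h8

/-- unlinked large variables: the trivial bound -/
lemma triv_case (hB : Bw g e c z C) (A : ℕ) {K : ℝ} (π : ι → Fin 4) (h3 : ∀ k, π k ≠ 3)
    (hK : ∑ k ∈ univ.filter (fun k => π k = 2), e k < K) :
    ∃ C' : ℝ, ∀ y, z < y →
      |∑ d ∈ Fintype.piFinset (fun b => cell z y (VV A (Real.log y)) (YY A (Real.log y)) (π b)),
        HG g L d| ≤ C' * (Real.log y) ^ K := by
  have hC0 : 0 ≤ C := zero_le_one.trans hB.C1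
  set S := ∑ k ∈ univ.filter (fun k => π k = 2), e k with hS
  obtain ⟨C1, hC1, h1⟩ := log_VV_pow_le A (Fintype.card ι) (sub_pos.2 hK)
  refine ⟨C ^ (Fintype.card ι) * C1, fun y hy => ?_⟩
  have hly := one_le_log hB.z2 hy
  have hly0 : 0 < Real.log y := by linarith
  set l := Real.log y with hl
  set V := VV A l with hV
  set Y := YY A l with hY
  refine (triv _ _ _).trans ((prod_low hB hy (three_le_VV A l) π univ fun k _ => h3 k).trans ?_)
  rw [← hS]
  calc C ^ (Fintype.card ι) * l ^ S * (Real.log V) ^ (Fintype.card ι)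
      ≤ C ^ (Fintype.card ι) * l ^ S * (C1 * l ^ (K - S)) :=
        mul_le_mul_of_nonneg_left (h1 l hly) (by positivity)
    _ = C ^ (Fintype.card ι) * C1 * (l ^ S * l ^ (K - S)) := by ring
    _ = _ := by rw [← Real.rpow_add hly0]; congr 2; ring

/-- the sum over a cell of kind 0 or 2 -/
lemma cs_diag (hB : Bw g e c z C) {y : ℕ} (hy : z < y) (V Y : ℕ) (k : ι) {r : Fin 4}
    (hr : r = 0 ∨ r = 2) : ∑ m ∈ cell z y V Y r, ah g k m ≤
      C * (if r = 2 then (Real.log y) ^ (e k) else 1) := by
  rcases hr with h | h
  · rw [h, if_neg (by decide)]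
    calc ∑ m ∈ cell z y V Y 0, ah g k m ≤ ∑ m ∈ ({1} : Finset ℕ), ah g k m := by
          apply sum_le_sum_of_subset_of_nonneg
          · intro m hm
            rw [mem_singleton]
            exact cell_zero hm
          · intro m _ _
            exact ah_nonneg _ _ _
      _ ≤ C * 1 := by
          rw [sum_singleton, ah, gg_one, hh_one, mul_one, mul_one, abs_one]
          exact hB.C1
  · rw [if_pos h]
    exact (sum_le_sum_of_subset_of_nonneg (cell_sub _ _ _ _ _) fun _ _ _ => ah_nonneg _ _ _).trans
      (hB.F1 k y hy)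

/-- all variables are 1 or large and unlinked -/
lemma diag_case (hB : Bw g e c z C) (A : ℕ) {K : ℝ} (π : ι → Fin 4)
    (h3 : ∀ k, π k = 0 ∨ π k = 2) (hK : ∑ k ∈ univ.filter (fun k => π k = 2), e k ≤ K) :
    ∃ C' : ℝ, ∀ y, z < y →
      |∑ d ∈ Fintype.piFinset (fun b => cell z y (VV A (Real.log y)) (YY A (Real.log y)) (π b)),
        HG g L d| ≤ C' * (Real.log y) ^ K := by
  have hC0 : 0 ≤ C := zero_le_one.trans hB.C1
  refine ⟨C ^ (Fintype.card ι), fun y hy => ?_⟩
  have hly := one_le_log hB.z2 hy
  have hly0 : 0 < Real.log y := by linarith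
  set l := Real.log y with hl
  set V := VV A l with hV
  set Y := YY A l with hY
  refine (triv _ _ _).trans ?_
  calc ∏ k, ∑ m ∈ cell z y V Y (π k), ah g k m
      ≤ ∏ k, (C * (if π k = 2 then l ^ (e k) else 1)) := by
        apply prod_le_prod _ fun k _ => cs_diag hB hy V Y k (h3 k)
        intro k _
        exact sum_nonneg fun m _ => ah_nonneg _ _ _
    _ = C ^ (Fintype.card ι) * l ^ (∑ k ∈ univ.filter (fun k => π k = 2), e k) := by
        rw [prod_mul_distrib, prod_const, prod_ite, prod_const_one, mul_one,
          ← Real.rpow_sum_of_pos hly0, card_univ]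
    _ ≤ _ := by
        apply mul_le_mul_of_nonneg_left _ (by positivity)
        exact Real.rpow_le_rpow_of_exponent_le hly hK

end Pool.Agent.L0h5.AG
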