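import Pool.Agent.L0h5.AG.A2
import Pool.Agent.L0h5.AG.Exc

/-!
# Sums of products of Jacobi symbols with general prime weights: the maximal unlinked sets
-/

set_option autoImplicit false

namespace Pool.Agent.L0h5.AG

open Finset Pool.Agent.W262.RK Pool.Agent.W262.RK.AT

variable {ι : Type} [Fintype ι] [DecidableEq ι]

variable {g : ι → ℕ → ℝ} {e : ι → ℝ} {L : ι → ι → Bool} {c z : ℕ} {C : ℝ}

/-- fixing the variables outside of `P` -/
lemma piFinset_split (P : ι → Prop) [DecidablePred P] (t : ι → Finset ℕ) (F : (ι → ℕ) → ℝ) :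
    ∑ x ∈ Fintype.piFinset t, F x =
      ∑ d ∈ Fintype.piFinset (fun b => if P b then {1} else t b),
        ∑ x ∈ Fintype.piFinset (fun b => if P b then t b else {d b}), F x := by
  classical
  rw [← sum_fiberwise_of_maps_to (s := Fintype.piFinset t)
    (t := Fintype.piFinset (fun b => if P b then {1} else t b))
    (g := fun x b => if P b then 1 else x b) (f := F)]
  · refine sum_congr rfl fun d hd => ?_
    rw [Fintype.mem_piFinset] at hd
    congr 1
    ext x
    rw [mem_filter, Fintype.mem_piFinset, Fintype.mem_piFinset, funext_iff]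
    constructor
    · rintro ⟨h1, h2⟩ b
      have h2b := h2 b
      by_cases hb : P b
      · rw [if_pos hb]
        exact h1 b
      · rw [if_neg hb] at h2b ⊢
        rw [mem_singleton]
        exact h2b
    · intro h
      refine ⟨fun b => ?_, fun b => ?_⟩
      · have hb' := h b
        have hd' := hd b
        by_cases hb : P b
        · rwa [if_pos hb] at hb'
        · rw [if_neg hb] at hb' hd'
          rw [mem_singleton] at hb'
          rw [hb']
          exact hd'
      · have hb' := h b
        have hd' := hd b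
        by_cases hb : P b
        · rw [if_pos hb] at hd' ⊢
          rw [mem_singleton] at hd'
          exact hd'.symm
        · rw [if_neg hb] at hb' ⊢
          rw [mem_singleton] at hb'
          exact hb'
  · intro x hx
    rw [Fintype.mem_piFinset] at hx ⊢
    intro b
    by_cases hb : P b
    · rw [if_pos hb, if_pos hb, mem_singleton]
    · rw [if_neg hb, if_neg hb]
      exact hx b

omit [Fintype ι] [DecidableEq ι] in
lemma ah_le_inv (hB : Bw g e c z C) (i : ι) {y m : ℕ} (hm : m ∈ (PP z y).divisors) :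
    ah g i m ≤ 1 / (m : ℝ) := by
  have hsq := dv_squarefree hm
  have h0 : (1 : ℝ) / m = ∏ p ∈ m.primeFactors, (1 / (p : ℝ)) := by
    rw [prod_div_distrib, prod_const_one]
    congr 1
    rw [← Nat.cast_prod, Nat.prod_primeFactors_of_squarefree hsq]
  rw [h0]
  unfold ah gg hh
  rw [abs_prod, ← prod_mul_distrib]
  refine prod_le_prod (fun p _ => by positivity) fun p hp => ?_
  have hpp := Nat.prime_of_mem_primeFactors hp
  have hpz := (dv_prime hm hpp (Nat.dvd_of_mem_primeFactors hp)).1
  have h1 := hB.g1 i p hpp hpz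
  have h2 : (2 * c + 3 : ℝ) ≤ p := by
    have := hB.zc
    exact_mod_cast (by omega : 2 * c + 3 ≤ p)
  have hc0 : (0 : ℝ) ≤ c := Nat.cast_nonneg c
  have h3 : (0 : ℝ) < (p : ℝ) - c := by linarith
  have hp0 : (0 : ℝ) < p := by linarith
  calc |g i p| * (1 + 2 / (p : ℝ)) ≤ (1 / 2) / ((p : ℝ) - c) * (1 + 2 / (p : ℝ)) :=
        mul_le_mul_of_nonneg_right h1 (by positivity)
    _ ≤ 1 / (p : ℝ) := by
        have e1 : 1 + 2 / (p : ℝ) = (p + 2) / p := by field_simp
        rw [e1, div_mul_div_comm, div_le_div_iff₀ (by positivity) hp0]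
        nlinarith

lemma card_div_pow {z y R N : ℕ} (hR : R ∣ PP z y) (hz : 2 ^ N ≤ z) :
    R.divisors.card ^ N ≤ R := by
  have hsq : Squarefree R := (PP_squarefree z y).squarefree_of_dvd hR
  have h1 := Pool.Agent.W655.RK.sum_divisors R.primeFactors
    (fun p hp => Nat.prime_of_mem_primeFactors hp) (fun _ => 1)
  rw [Nat.prod_primeFactors_of_squarefree hsq] at h1
  simp only [sum_const, nsmul_eq_mul, mul_one, card_powerset] at h1
  have h2 : R.divisors.card = 2 ^ R.primeFactors.card := by exact_mod_cast h1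
  rw [h2, ← pow_mul, mul_comm, pow_mul]
  calc (2 ^ N) ^ R.primeFactors.card = ∏ p ∈ R.primeFactors, 2 ^ N := by rw [prod_const]
    _ ≤ ∏ p ∈ R.primeFactors, p := prod_le_prod' fun p hp => by
        have hpp := Nat.prime_of_mem_primeFactors hp
        have h3 := (mem_PS.1 ((prime_dvd_PP hpp).1 ((Nat.dvd_of_mem_primeFactors hp).trans hR))).1.1
        omega
    _ = R := Nat.prod_primeFactors_of_squarefree hsq

/-- the sum over the bad tuples -/
lemma bad_sum {z y : ℕ} (hz : 2 ^ Fintype.card ι ≤ z) (Bad : Finset (ι → ℕ)) (E : ι → Finset ℕ)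
    (h1 : ∀ d ∈ Bad, ∏ b, d b ∣ PP z y)
    (h2 : ∀ d ∈ Bad, ∃ r : ι → ℕ, (∀ i, r i ∈ E i) ∧
      (∏ b, d b).primeFactors = univ.biUnion (fun i => (r i).primeFactors)) :
    ∑ d ∈ Bad, 1 / ((∏ b, d b : ℕ) : ℝ) ≤ ∏ i, ((E i).card : ℝ) := by
  classical
  set R : (ι → ℕ) → ℕ := fun d => ∏ b, d b with hR
  have e1 : ∑ d ∈ Bad, 1 / ((∏ b, d b : ℕ) : ℝ) =
      ∑ r ∈ Bad.image R, ∑ d ∈ Bad.filter (fun d => R d = r), 1 / ((R d : ℕ) : ℝ) :=
    (sum_fiberwise_of_maps_to (fun d hd => mem_image_of_mem R hd) _).symm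
  rw [e1]
  have e2 : ∀ r ∈ Bad.image R, ∑ d ∈ Bad.filter (fun d => R d = r), 1 / ((R d : ℕ) : ℝ) ≤ 1 := by
    intro r hr
    obtain ⟨d0, hd0, hd0r⟩ := mem_image.1 hr
    have hrP : r ∣ PP z y := by rw [← hd0r]; exact h1 d0 hd0
    have hr0 : r ≠ 0 := fun h => PP_ne_zero z y (Nat.eq_zero_of_zero_dvd (h ▸ hrP))
    have e3 : ∑ d ∈ Bad.filter (fun d => R d = r), 1 / ((R d : ℕ) : ℝ) =
        ((Bad.filter (fun d => R d = r)).card : ℝ) * (1 / (r : ℝ)) := by
      rw [← nsmul_eq_mul, ← sum_const]
      refine sum_congr rfl fun d hd => ?_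
      rw [(mem_filter.1 hd).2]
    have e4 : (Bad.filter (fun d => R d = r)).card ≤ r.divisors.card ^ Fintype.card ι := by
      have : (Fintype.piFinset (fun _ : ι => r.divisors)).card = r.divisors.card ^ Fintype.card ι := by
        rw [Fintype.card_piFinset, prod_const, card_univ]
      rw [← this]
      apply card_le_card
      intro d hd
      rw [mem_filter] at hd
      rw [Fintype.mem_piFinset]
      intro b
      rw [Nat.mem_divisors]
      refine ⟨?_, hr0⟩
      rw [← hd.2]
      exact dvd_prod_of_mem _ (mem_univ b)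
    have e5 := e4.trans (card_div_pow hrP hz)
    rw [e3, mul_one_div, div_le_one (by exact_mod_cast Nat.pos_of_ne_zero hr0)]
    exact_mod_cast e5
  refine (sum_le_sum e2).trans ?_
  rw [sum_const, nsmul_eq_mul, mul_one]
  have e3 : (Bad.image R).card ≤ (Fintype.piFinset E).card := by
    set Φ : (ι → ℕ) → ℕ := fun r => ∏ p ∈ univ.biUnion (fun i => (r i).primeFactors), p with hΦ
    refine le_trans (card_le_card (t := (Fintype.piFinset E).image Φ) ?_) card_image_le
    intro r hr
    obtain ⟨d, hd, hdr⟩ := mem_image.1 hr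
    obtain ⟨ρ, hρ1, hρ2⟩ := h2 d hd
    rw [mem_image]
    refine ⟨ρ, Fintype.mem_piFinset.2 hρ1, ?_⟩
    rw [hΦ]
    simp only
    rw [← hρ2, ← hdr]
    exact Nat.prod_primeFactors_of_squarefree ((PP_squarefree z y).squarefree_of_dvd (h1 d hd))
  rw [Fintype.card_piFinset] at e3
  exact_mod_cast e3

/-- the exceptional set -/
noncomputable def Ex (g : ℕ → ℝ) (e : ℝ) (z y Z : ℕ) (t : Bool) : Finset ℕ :=
  open Classical in (Icc 1 Z).filter (fun r => Squarefree r ∧ (∀ p : ℕ, p.Prime → p ∣ r → z < p) ∧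
    e / 2 * Real.log (Real.log y) < ∑ p ∈ PS z y, g p * ps r t p)

lemma mem_Ex {g : ℕ → ℝ} {e : ℝ} {z y Z : ℕ} {t : Bool} {r : ℕ} : r ∈ Ex g e z y Z t ↔
    (1 ≤ r ∧ r ≤ Z) ∧ Squarefree r ∧ (∀ p : ℕ, p.Prime → p ∣ r → z < p) ∧
    e / 2 * Real.log (Real.log y) < ∑ p ∈ PS z y, g p * ps r t p := by
  classical
  unfold Ex
  rw [mem_filter, mem_Icc]

/-- the sums for a fixed small tuple with a good large variable -/
lemma good_case (hB : Bw g e c z C) (hL : ∀ i, L i i = false) (A : ℕ) (π : ι → Fin 4)
    (hun : ∀ i j, π i = 2 → π j = 2 → L i j = L j i) {y : ℕ} (hy : z < y) {d : ι → ℕ}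
    (hd : ∀ b, d b ∈ (PP z y).divisors) {i : ι} (hi : π i = 2)
    (hgood : ∀ t, ∑ p ∈ PS z y, g i p * ps (lk L i d) t p ≤ e i / 2 * Real.log (Real.log y)) :
    |∑ x ∈ Fintype.piFinset (fun b => if π b = 2 then
        cell z y (VV A (Real.log y)) (YY A (Real.log y)) (π b) else {d b}), HG g L x| ≤
      (∏ b ∈ univ.filter (fun b => π b ≠ 2), ah g b (d b)) *
        (C ^ Fintype.card ι * (3 * C + 1) *
          (Real.log y) ^ (∑ k ∈ univ.filter (fun k => π k = 2), e k - e i / 2) *
          Real.log (VV A (Real.log y))) := by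
  classical
  have hC0 : 0 ≤ C := zero_le_one.trans hB.C1
  have hly := one_le_log hB.z2 hy
  have hly0 : 0 < Real.log y := by linarith
  set l := Real.log y with hl
  set V := VV A l with hV
  set Y := YY A l with hY
  have hV3 : 3 ≤ V := three_le_VV A l
  have hVY : V ≤ Y := VV_le_YY A l
  have hlV : 1 ≤ Real.log V := one_le_log_VV A l
  set t : ι → Finset ℕ := fun b => if π b = 2 then cell z y V Y (π b) else {d b} with ht
  have htsub : ∀ b, t b ⊆ (PP z y).divisors := by
    intro b
    rw [ht]
    simp only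
    split_ifs with h
    · exact cell_sub _ _ _ _ _
    · intro m hm
      rw [mem_singleton] at hm
      rw [hm]
      exact hd b
  have hti : t i = (PP z y).divisors.filter (fun m => V < m ∧ m ≤ Y) := by
    rw [ht]
    simp only [if_pos hi, hi]
    exact cell_two (by omega)
  have hcase := char_case (L := L) hB i (hL i) (V := V) (Y := Y) hy (by omega) hVY htsub hti
    (B := e i / 2 * Real.log l) (by
      intro x hx s
      have hlk : lk L i x = lk L i d := by
        unfold lk
        refine prod_congr rfl fun b hb => ?_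
        rw [mem_filter, mem_erase] at hb
        have hb2 : π b ≠ 2 := fun h => hb.2 (hun i b hi h)
        have := Fintype.mem_piFinset.1 hx b
        rw [Function.update_of_ne hb.1.1, ht] at this
        simp only [if_neg hb2, mem_singleton] at this
        exact this
      rw [hlk]
      exact hgood s)
  refine hcase.trans ?_
  -- the product
  have hprod : ∏ b ∈ univ.erase i, ∑ m ∈ t b, ah g b m ≤
      (∏ b ∈ univ.filter (fun b => π b ≠ 2), ah g b (d b)) *
        (C ^ Fintype.card ι * l ^ (∑ k ∈ univ.filter (fun k => π k = 2), e k - e i)) := by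
    rw [← prod_filter_mul_prod_filter_not (univ.erase i) (fun b => π b ≠ 2)]
    have e1 : (univ.erase i).filter (fun b => π b ≠ 2) = univ.filter (fun b => π b ≠ 2) := by
      ext b
      simp only [mem_filter, mem_erase, mem_univ, and_true, true_and]
      constructor
      · rintro ⟨_, h⟩
        exact h
      · intro h
        exact ⟨by rintro rfl; exact h hi, h⟩
    have e2 : ∏ b ∈ (univ.erase i).filter (fun b => π b ≠ 2), ∑ m ∈ t b, ah g b m =
        ∏ b ∈ univ.filter (fun b => π b ≠ 2), ah g b (d b) := by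
      rw [e1]
      refine prod_congr rfl fun b hb => ?_
      rw [ht]
      simp only [if_neg (mem_filter.1 hb).2, sum_singleton]
    rw [e2]
    refine mul_le_mul_of_nonneg_left ?_ (prod_nonneg fun b _ => ah_nonneg _ _ _)
    have e3 : (univ.erase i).filter (fun b => ¬ π b ≠ 2) =
        (univ.filter (fun b => π b = 2)).erase i := by
      ext b
      simp only [mem_filter, mem_erase, mem_univ, and_true, true_and, not_not]
    rw [e3]
    have e4 : ∏ b ∈ (univ.filter (fun b => π b = 2)).erase i, ∑ m ∈ t b, ah g b m ≤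
        ∏ b ∈ (univ.filter (fun b => π b = 2)).erase i, (C * l ^ (e b)) := by
      refine prod_le_prod (fun b _ => sum_nonneg fun m _ => ah_nonneg _ _ _) fun b hb => ?_
      have hb2 := (mem_filter.1 (mem_erase.1 hb).2).2
      rw [ht]
      simp only [if_pos hb2]
      have := cs_diag hB hy V Y b (r := π b) (Or.inr hb2)
      rwa [if_pos hb2] at this
    refine e4.trans ?_
    rw [prod_mul_distrib, prod_const, ← Real.rpow_sum_of_pos hly0]
    refine mul_le_mul (pow_le_pow_right₀ hB.C1 ?_) (le_of_eq ?_) (by positivity) (by positivity)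
    · exact (card_le_card (subset_univ _)).trans (le_of_eq card_univ)
    · congr 1
      rw [← add_sum_erase _ _ (show i ∈ univ.filter (fun k => π k = 2) by
        rw [mem_filter]; exact ⟨mem_univ i, hi⟩)]
      ring
  have hbr : Real.exp (e i / 2 * Real.log l) + C * Real.log V +
      C * Real.exp (-(Real.log Y / l)) * l ^ 2 ≤ (3 * C + 1) * l ^ (e i / 2) * Real.log V := by
    have he0 := hB.e0 i
    have e1 : Real.exp (e i / 2 * Real.log l) = l ^ (e i / 2) := by
      rw [Real.rpow_def_of_pos hly0, mul_comm]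
    have e2 : (1 : ℝ) ≤ l ^ (e i / 2) := Real.one_le_rpow hly (by linarith)
    have hlY : l ≤ Real.log Y / l := by
      rw [le_div_iff₀ hly0]
      have := log_YY_ge A l
      nlinarith
    have e3 : Real.exp (-(Real.log Y / l)) * l ^ 2 ≤ 2 := by
      have a1 : Real.exp (-(Real.log Y / l)) ≤ Real.exp (-l) := Real.exp_le_exp.2 (by linarith)
      have a2 := exp_neg_pow 2 hly
      have a3 : ((Nat.factorial 2 : ℕ) : ℝ) = 2 := by norm_num [Nat.factorial]
      rw [a3] at a2
      exact (mul_le_mul_of_nonneg_right a1 (by positivity)).trans a2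
    have e4 : C * Real.exp (-(Real.log Y / l)) * l ^ 2 ≤ C * 2 := by
      rw [mul_assoc]
      exact mul_le_mul_of_nonneg_left e3 hC0
    have e5 : (1 : ℝ) ≤ l ^ (e i / 2) * Real.log V := one_le_mul_of_one_le_of_one_le e2 hlV
    have e6 : l ^ (e i / 2) ≤ l ^ (e i / 2) * Real.log V :=
      le_mul_of_one_le_right (by positivity) hlV
    have e7 : Real.log V ≤ l ^ (e i / 2) * Real.log V :=
      le_mul_of_one_le_left (by positivity) e2
    rw [e1]
    have e8 := mul_le_mul_of_nonneg_left e7 hC0
    have e9 := mul_le_mul_of_nonneg_left e5 (by positivity : 0 ≤ C * 2)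
    calc _ ≤ l ^ (e i / 2) * Real.log V + C * (l ^ (e i / 2) * Real.log V) +
          C * 2 * (l ^ (e i / 2) * Real.log V) := by linarith
      _ = _ := by ring
  have hbr0 : 0 ≤ Real.exp (e i / 2 * Real.log l) + C * Real.log V +
      C * Real.exp (-(Real.log Y / l)) * l ^ 2 := by positivity
  have hW0 : 0 ≤ ∏ b ∈ univ.filter (fun b => π b ≠ 2), ah g b (d b) :=
    prod_nonneg fun b _ => ah_nonneg _ _ _
  calc _ ≤ ((∏ b ∈ univ.filter (fun b => π b ≠ 2), ah g b (d b)) *
        (C ^ Fintype.card ι * l ^ (∑ k ∈ univ.filter (fun k => π k = 2), e k - e i))) *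
        ((3 * C + 1) * l ^ (e i / 2) * Real.log V) :=
        mul_le_mul hprod hbr hbr0 (by positivity)
    _ = (∏ b ∈ univ.filter (fun b => π b ≠ 2), ah g b (d b)) *
        (C ^ Fintype.card ι * (3 * C + 1) *
          (l ^ (∑ k ∈ univ.filter (fun k => π k = 2), e k - e i) * l ^ (e i / 2)) *
          Real.log V) := by ring
    _ = _ := by
        rw [← Real.rpow_add hly0]
        congr 4
        ring

/-- the sums for a fixed small tuple, trivially -/
lemma bad_case (hB : Bw g e c z C) (A : ℕ) (π : ι → Fin 4) {y : ℕ} (hy : z < y) (d : ι → ℕ) :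
    |∑ x ∈ Fintype.piFinset (fun b => if π b = 2 then
        cell z y (VV A (Real.log y)) (YY A (Real.log y)) (π b) else {d b}), HG g L x| ≤
      (∏ b ∈ univ.filter (fun b => π b ≠ 2), ah g b (d b)) *
        (C ^ Fintype.card ι * (Real.log y) ^ (∑ k ∈ univ.filter (fun k => π k = 2), e k)) := by
  classical
  have hC0 : 0 ≤ C := zero_le_one.trans hB.C1
  have hly := one_le_log hB.z2 hy
  have hly0 : 0 < Real.log y := by linarith
  set l := Real.log y with hl
  set V := VV A l with hV
  set Y := YY A l with hY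
  refine (triv _ _ _).trans ?_
  rw [← prod_filter_mul_prod_filter_not univ (fun b => π b ≠ 2)]
  have e2 : ∏ b ∈ univ.filter (fun b => π b ≠ 2),
      ∑ m ∈ (if π b = 2 then cell z y V Y (π b) else {d b}), ah g b m =
      ∏ b ∈ univ.filter (fun b => π b ≠ 2), ah g b (d b) := by
    refine prod_congr rfl fun b hb => ?_
    simp only [if_neg (mem_filter.1 hb).2, sum_singleton]
  rw [e2]
  refine mul_le_mul_of_nonneg_left ?_ (prod_nonneg fun b _ => ah_nonneg _ _ _)
  have e3 : univ.filter (fun b => ¬ π b ≠ 2) = univ.filter (fun b => π b = 2) := by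
    ext b
    simp
  rw [e3]
  have e4 : ∏ b ∈ univ.filter (fun b => π b = 2),
      ∑ m ∈ (if π b = 2 then cell z y V Y (π b) else {d b}), ah g b m ≤
      ∏ b ∈ univ.filter (fun b => π b = 2), (C * l ^ (e b)) := by
    refine prod_le_prod (fun b _ => sum_nonneg fun m _ => ah_nonneg _ _ _) fun b hb => ?_
    have hb2 := (mem_filter.1 hb).2
    simp only [if_pos hb2]
    have := cs_diag hB hy V Y b (r := π b) (Or.inr hb2)
    rwa [if_pos hb2] at this
  refine e4.trans ?_
  rw [prod_mul_distrib, prod_const, ← Real.rpow_sum_of_pos hly0]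
  exact mul_le_mul (pow_le_pow_right₀ hB.C1 ((card_le_card (subset_univ _)).trans
    (le_of_eq card_univ))) le_rfl (by positivity) (by positivity)

end Pool.Agent.L0h5.AG
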