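import Pool.Agent.L0h5.AG.A3
import Pool.Agent.W262.RK.MA

/-!
# Sums of products of Jacobi symbols with general prime weights: the bound
-/

set_option autoImplicit false

namespace Pool.Agent.L0h5.AG

open Finset Pool.Agent.W262.RK Pool.Agent.W262.RK.AT

variable {ι : Type} [Fintype ι] [DecidableEq ι]

variable {g : ι → ℕ → ℝ} {e : ι → ℝ} {L : ι → ι → Bool} {c z : ℕ} {C : ℝ}

/-- the exceptional sets are bounded -/
def XB (g : ι → ℕ → ℝ) (e : ι → ℝ) (z A n y0 : ℕ) : Prop :=
  ∀ y, y0 ≤ y → z < y → ∀ i t,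
    (Ex (g i) (e i) z y (VV A (Real.log y) ^ Fintype.card ι) t).card ≤ n

/-- maximal unlinked large variables and a small variable different from 1 -/
lemma max_case (hB : Bw g e c z C) (hL : ∀ i, L i i = false) (A : ℕ) {K : ℝ} (hK0 : 0 ≤ K)
    (π : ι → Fin 4) (h3 : ∀ k, π k ≠ 3) (hun : ∀ i j, π i = 2 → π j = 2 → L i j = L j i)
    (hmax : ∀ j, π j = 1 → ∃ i, π i = 2 ∧ L i j ≠ L j i)
    (hK : ∑ k ∈ univ.filter (fun k => π k = 2), e k ≤ K) (hz : 2 ^ Fintype.card ι ≤ z)
    {n y0 : ℕ} (hX : XB g e z A n y0) :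
    ∃ C' : ℝ, ∀ y, z < y →
      |∑ d ∈ Fintype.piFinset (fun b => cell z y (VV A (Real.log y)) (YY A (Real.log y)) (π b)),
        HG g L d| ≤ C' * (Real.log y) ^ K := by
  classical
  have hC0 : 0 ≤ C := zero_le_one.trans hB.C1
  set S := ∑ k ∈ univ.filter (fun k => π k = 2), e k with hS
  choose C1 hC1 h1 using fun i => log_VV_pow_le A (Fintype.card ι + 1)
    (show 0 < e i / 2 by have := hB.e0 i; linarith)
  refine ⟨(C * Real.log (max y0 3)) ^ Fintype.card ι +
    (∑ i, C ^ Fintype.card ι * (C ^ Fintype.card ι * (3 * C + 1) * C1 i)) +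
    (∏ i : ι, ((2 * n + 1 : ℕ) : ℝ)) * C ^ Fintype.card ι, fun y hy => ?_⟩
  have hly := one_le_log hB.z2 hy
  have hly0 : 0 < Real.log y := by linarith
  have hlK : (1 : ℝ) ≤ (Real.log y) ^ K := Real.one_le_rpow hly hK0
  have hlm : 0 ≤ Real.log (max y0 3 : ℕ) := Real.log_natCast_nonneg _
  have hlm' : 0 ≤ Real.log (max (y0 : ℝ) 3) := by
    have : ((max y0 3 : ℕ) : ℝ) = max (y0 : ℝ) 3 := by push_cast; rfl
    rw [← this]
    exact hlm
  have ha0 : 0 ≤ (C * Real.log (max (y0 : ℝ) 3)) ^ Fintype.card ι := by positivity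
  have hb0 : 0 ≤ ∑ i, C ^ Fintype.card ι * (C ^ Fintype.card ι * (3 * C + 1) * C1 i) :=
    sum_nonneg fun i _ => by have := hC1 i; positivity
  have hc0 : 0 ≤ (∏ i : ι, ((2 * n + 1 : ℕ) : ℝ)) * C ^ Fintype.card ι := by positivity
  rcases Nat.lt_or_ge y y0 with hyy | hyy
  · -- the small values
    have e1 : |∑ d ∈ Fintype.piFinset (fun b => cell z y (VV A (Real.log y))
        (YY A (Real.log y)) (π b)), HG g L d| ≤ (C * Real.log (max (y0 : ℝ) 3)) ^ Fintype.card ι := by
      refine (triv _ _ _).trans ?_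
      calc ∏ i, ∑ m ∈ cell z y (VV A (Real.log y)) (YY A (Real.log y)) (π i), ah g i m
          ≤ ∏ i : ι, (C * Real.log (max (y0 : ℝ) 3)) := by
            refine prod_le_prod (fun i _ => sum_nonneg fun m _ => ah_nonneg _ _ _) fun i _ => ?_
            refine (cs_any hB hy _ _ i (π i)).trans (mul_le_mul_of_nonneg_left ?_ hC0)
            refine Real.log_le_log (by exact_mod_cast (by omega : 0 < y)) ?_
            exact le_max_of_le_left (by exact_mod_cast hyy.le)
        _ = _ := by rw [prod_const, card_univ]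
    calc _ ≤ _ := e1
      _ ≤ (C * Real.log (max (y0 : ℝ) 3)) ^ Fintype.card ι * (Real.log y) ^ K :=
          le_mul_of_one_le_right ha0 hlK
      _ ≤ _ := mul_le_mul_of_nonneg_right (by linarith) (by linarith)
  set l := Real.log y with hl
  set V := VV A l with hV
  set Y := YY A l with hY
  have hV3 : 3 ≤ V := three_le_VV A l
  have hlV : 1 ≤ Real.log V := one_le_log_VV A l
  rw [piFinset_split (fun b => π b = 2) (fun b => cell z y V Y (π b))]
  refine (abs_sum_le_sum_abs _ _).trans ?_
  set sm := Fintype.piFinset (fun b => if π b = 2 then {1} else cell z y V Y (π b)) with hsm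
  set F : (ι → ℕ) → ℝ := fun d => |∑ x ∈ Fintype.piFinset
    (fun b => if π b = 2 then cell z y V Y (π b) else {d b}), HG g L x| with hF
  have hdv : ∀ d ∈ sm, ∀ b, d b ∈ (PP z y).divisors := by
    intro d hd b
    have := Fintype.mem_piFinset.1 hd b
    by_cases hb : π b = 2
    · rw [if_pos hb, mem_singleton] at this
      rw [this]
      exact one_mem_dv z y
    · rw [if_neg hb] at this
      exact cell_sub _ _ _ _ _ this
  -- the good and the bad tuples
  set Gd : (ι → ℕ) → Prop := fun d => ∃ i, π i = 2 ∧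
    ∀ t, ∑ p ∈ PS z y, g i p * ps (lk L i d) t p ≤ e i / 2 * Real.log l with hGd
  set Cp : (ι → ℕ) → Prop := fun d => ∀ i j, i ≠ j → (d i).Coprime (d j) with hCp
  set W : (ι → ℕ) → ℝ := fun d => ∏ b ∈ univ.filter (fun b => π b ≠ 2), ah g b (d b) with hW
  have hW0 : ∀ d, 0 ≤ W d := fun d => prod_nonneg fun b _ => ah_nonneg _ _ _
  have hsplit : ∑ d ∈ sm, F d ≤ ∑ d ∈ sm.filter Gd, F d +
      ∑ d ∈ (sm.filter (fun d => ¬ Gd d)).filter Cp, F d := by
    rw [← sum_filter_add_sum_filter_not sm Gd]
    refine add_le_add le_rfl ?_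
    rw [← sum_filter_add_sum_filter_not (sm.filter (fun d => ¬ Gd d)) Cp]
    have : ∑ d ∈ (sm.filter (fun d => ¬ Gd d)).filter (fun d => ¬ Cp d), F d = 0 := by
      refine sum_eq_zero fun d hd => ?_
      rw [mem_filter, mem_filter] at hd
      obtain ⟨⟨hd1, _⟩, hd2⟩ := hd
      rw [hCp] at hd2
      simp only at hd2
      push Not at hd2
      obtain ⟨i, j, hij, hnc⟩ := hd2
      have hne : ∀ b, π b = 2 → d b = 1 := by
        intro b hb
        have := Fintype.mem_piFinset.1 hd1 b
        rwa [if_pos hb, mem_singleton] at this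
      have hi2 : π i ≠ 2 := fun h => hnc (by rw [hne i h]; exact Nat.coprime_one_left _)
      have hj2 : π j ≠ 2 := fun h => hnc (by rw [hne j h]; exact Nat.coprime_one_right _)
      rw [hF]
      simp only
      rw [sum_eq_zero, abs_zero]
      intro x hx
      have hxi := Fintype.mem_piFinset.1 hx i
      have hxj := Fintype.mem_piFinset.1 hx j
      rw [if_neg hi2, mem_singleton] at hxi
      rw [if_neg hj2, mem_singleton] at hxj
      unfold HG
      rw [if_neg]
      intro h
      have := h i j hij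
      rw [hxi, hxj] at this
      exact hnc this
    rw [this, add_zero]
  -- the good tuples
  have hWsum : ∑ d ∈ sm, W d ≤ C ^ Fintype.card ι * (Real.log V) ^ Fintype.card ι := by
    have e1 : ∀ d ∈ sm, W d = ∏ b, (if π b = 2 then 1 else ah g b (d b)) := by
      intro d _
      rw [hW]
      simp only
      rw [prod_filter]
      refine prod_congr rfl fun b _ => ?_
      by_cases hb : π b = 2
      · simp [hb]
      · simp [hb]
    rw [sum_congr rfl e1, hsm, ← prod_univ_sum (fun b => if π b = 2 then {1} else cell z y V Y (π b))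
      (fun b m => if π b = 2 then 1 else ah g b m)]
    have e2 : ∀ b : ι, ∑ m ∈ (if π b = 2 then {1} else cell z y V Y (π b)),
        (if π b = 2 then 1 else ah g b m) ≤ C * Real.log V := by
      intro b
      by_cases hb : π b = 2
      · simp only [if_pos hb, sum_const, card_singleton, one_smul]
        nlinarith [hB.C1]
      · simp only [if_neg hb]
        have := cs_low hB hy (Y := Y) hV3 b (h3 b)
        rwa [if_neg hb] at this
    refine (prod_le_prod (fun b _ => ?_) fun b _ => e2 b).trans (le_of_eq ?_)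
    · refine sum_nonneg fun m _ => ?_
      split_ifs
      · exact zero_le_one
      · exact ah_nonneg _ _ _
    · rw [prod_const, card_univ, mul_pow]
  have hgoodsum : ∑ d ∈ sm.filter Gd, F d ≤
      (∑ i, C ^ Fintype.card ι * (C ^ Fintype.card ι * (3 * C + 1) * C1 i)) * l ^ K := by
    have e1 : ∀ d ∈ sm.filter Gd, F d ≤ W d * ∑ i, (C ^ Fintype.card ι * (3 * C + 1) *
        l ^ (S - e i / 2) * Real.log V) := by
      intro d hd
      rw [mem_filter] at hd
      obtain ⟨hd1, i, hi, hgi⟩ := hd
      have := good_case hB hL A π hun hy (hdv d hd1) hi hgi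
      refine this.trans (mul_le_mul_of_nonneg_left ?_ (hW0 d))
      exact single_le_sum (f := fun i => C ^ Fintype.card ι * (3 * C + 1) *
        l ^ (S - e i / 2) * Real.log V) (fun j _ => by positivity) (mem_univ i)
    refine (sum_le_sum e1).trans ?_
    rw [← sum_mul]
    have e2 : ∑ d ∈ sm.filter Gd, W d ≤ C ^ Fintype.card ι * (Real.log V) ^ Fintype.card ι :=
      (sum_le_sum_of_subset_of_nonneg (filter_subset _ _) fun d _ _ => hW0 d).trans hWsum
    have e3 : 0 ≤ ∑ i, (C ^ Fintype.card ι * (3 * C + 1) *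
        l ^ (S - e i / 2) * Real.log V) := sum_nonneg fun i _ => by positivity
    refine (mul_le_mul_of_nonneg_right e2 e3).trans ?_
    rw [mul_sum, sum_mul]
    refine sum_le_sum fun i _ => ?_
    have e4 := h1 i l hly
    have e5 : l ^ (S - e i / 2) * l ^ (e i / 2) ≤ l ^ K := by
      rw [← Real.rpow_add hly0]
      exact Real.rpow_le_rpow_of_exponent_le hly (by linarith)
    calc C ^ Fintype.card ι * (Real.log V) ^ Fintype.card ι * (C ^ Fintype.card ι * (3 * C + 1) *
        l ^ (S - e i / 2) * Real.log V)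
        = C ^ Fintype.card ι * (C ^ Fintype.card ι * (3 * C + 1)) * l ^ (S - e i / 2) *
          (Real.log V) ^ (Fintype.card ι + 1) := by ring
      _ ≤ C ^ Fintype.card ι * (C ^ Fintype.card ι * (3 * C + 1)) * l ^ (S - e i / 2) *
          (C1 i * l ^ (e i / 2)) := mul_le_mul_of_nonneg_left e4 (by positivity)
      _ = C ^ Fintype.card ι * (C ^ Fintype.card ι * (3 * C + 1)) * C1 i *
          (l ^ (S - e i / 2) * l ^ (e i / 2)) := by ring
      _ ≤ C ^ Fintype.card ι * (C ^ Fintype.card ι * (3 * C + 1)) * C1 i * l ^ K :=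
          mul_le_mul_of_nonneg_left e5 (by have := hC1 i; positivity)
      _ = _ := by ring
  -- the bad tuples
  set Bd := (sm.filter (fun d => ¬ Gd d)).filter Cp with hBd
  have hbadW : ∑ d ∈ Bd, W d ≤ ∏ i : ι, ((2 * n + 1 : ℕ) : ℝ) := by
    set E : ι → Finset ℕ := fun i => if π i = 2 then
      Ex (g i) (e i) z y (V ^ Fintype.card ι) true ∪ Ex (g i) (e i) z y (V ^ Fintype.card ι) false
      else {1} with hE
    have hcop : ∀ d ∈ Bd, (∀ b, d b ∈ (PP z y).divisors) ∧ Cp d := by
      intro d hd
      rw [hBd, mem_filter, mem_filter] at hd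
      exact ⟨hdv d hd.1.1, hd.2⟩
    have hR : ∀ d ∈ Bd, ∏ b, d b ∣ PP z y := by
      intro d hd
      obtain ⟨h1, h2⟩ := hcop d hd
      refine Finset.prod_dvd_of_isRelPrime (fun i _ j _ hij => ?_) fun b _ =>
        Nat.dvd_of_mem_divisors (h1 b)
      exact Nat.coprime_iff_isRelPrime.1 (h2 i j hij)
    have h2 : ∀ d ∈ Bd, ∃ r : ι → ℕ, (∀ i, r i ∈ E i) ∧
        (∏ b, d b).primeFactors = univ.biUnion (fun i => (r i).primeFactors) := by
      intro d hd
      obtain ⟨hd1, hd2⟩ := hcop d hd
      have hdsm : d ∈ sm ∧ ¬ Gd d := by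
        rw [hBd, mem_filter, mem_filter] at hd
        exact hd.1
      have hone : ∀ b, π b = 2 ∨ π b = 0 → d b = 1 := by
        intro b hb
        have := Fintype.mem_piFinset.1 hdsm.1 b
        rcases hb with hb | hb
        · rwa [if_pos hb, mem_singleton] at this
        · rw [if_neg (by rw [hb]; decide), hb] at this
          exact cell_zero this
      have hle : ∀ b, 0 < d b ∧ d b ≤ V := by
        intro b
        refine ⟨dv_pos (hd1 b), ?_⟩
        by_cases hb : π b = 2 ∨ π b = 0
        · rw [hone b hb]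
          omega
        · have hb1 : π b = 1 := by
            have h3b := h3 b
            revert hb h3b
            generalize π b = r
            revert r
            decide
          have := Fintype.mem_piFinset.1 hdsm.1 b
          rw [if_neg (by rw [hb1]; decide), hb1] at this
          exact (cell_one this).2
      have hlkle : ∀ i, 1 ≤ lk L i d ∧ lk L i d ≤ V ^ Fintype.card ι := by
        intro i
        unfold lk
        constructor
        · exact prod_pos fun b _ => (hle b).1
        · calc ∏ b ∈ (univ.erase i).filter (fun b => L i b ≠ L b i), d b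
              ≤ ∏ b ∈ (univ.erase i).filter (fun b => L i b ≠ L b i), V :=
                prod_le_prod' fun b _ => (hle b).2
            _ = V ^ ((univ.erase i).filter (fun b => L i b ≠ L b i)).card := by rw [prod_const]
            _ ≤ V ^ Fintype.card ι := Nat.pow_le_pow_right (by omega)
                ((card_le_card (subset_univ _)).trans (le_of_eq card_univ))
      have hlksq : ∀ i, Squarefree (lk L i d) := by
        intro i
        unfold lk
        exact squarefree_prod _ _ (fun b _ => dv_squarefree (hd1 b))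
          fun a _ b _ hab => hd2 a b hab
      refine ⟨fun i => if π i = 2 then lk L i d else 1, fun i => ?_, ?_⟩
      · rw [hE]
        simp only
        by_cases hi : π i = 2
        · rw [if_pos hi, if_pos hi]
          have hng : ∃ t, e i / 2 * Real.log l < ∑ p ∈ PS z y, g i p * ps (lk L i d) t p := by
            by_contra hcon
            push Not at hcon
            exact hdsm.2 ⟨i, hi, hcon⟩
          obtain ⟨t, ht⟩ := hng
          have hmem : lk L i d ∈ Ex (g i) (e i) z y (V ^ Fintype.card ι) t :=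
            mem_Ex.2 ⟨hlkle i, hlksq i, fun p hp hpd => lk_primes hd1 hp hpd, ht⟩
          rw [mem_union]
          cases t
          · exact Or.inr hmem
          · exact Or.inl hmem
        · rw [if_neg hi, if_neg hi, mem_singleton]
      · ext p
        rw [mem_biUnion, Nat.mem_primeFactors]
        have hne : ∏ b, d b ≠ 0 := prod_ne_zero_iff.2 fun b _ => dv_ne_zero (hd1 b)
        constructor
        · rintro ⟨hp, hpd, -⟩
          obtain ⟨b, -, hb⟩ := (hp.prime.dvd_finsetProd_iff _).1 hpd
          have hb1 : π b = 1 := by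
            have hb' : ¬ (π b = 2 ∨ π b = 0) := by
              intro h
              rw [hone b h] at hb
              exact hp.one_lt.ne' (Nat.dvd_one.1 hb)
            have h3b := h3 b
            revert hb' h3b
            generalize π b = r
            revert r
            decide
          obtain ⟨i, hi, hib⟩ := hmax b hb1
          refine ⟨i, mem_univ i, ?_⟩
          simp only [if_pos hi]
          rw [Nat.mem_primeFactors]
          refine ⟨hp, ?_, by have := (hlkle i).1; omega⟩
          unfold lk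
          refine hb.trans (dvd_prod_of_mem _ ?_)
          rw [mem_filter, mem_erase]
          exact ⟨⟨by rintro rfl; rw [hi] at hb1; exact absurd hb1 (by decide), mem_univ b⟩, hib⟩
        · rintro ⟨i, -, hi⟩
          by_cases hi2 : π i = 2
          · simp only [if_pos hi2] at hi
            rw [Nat.mem_primeFactors] at hi
            refine ⟨hi.1, hi.2.1.trans ?_, hne⟩
            unfold lk
            exact prod_dvd_prod_of_subset _ _ _ (subset_univ _)
          · simp [hi2] at hi
    have e1 : ∑ d ∈ Bd, W d ≤ ∑ d ∈ Bd, 1 / ((∏ b, d b : ℕ) : ℝ) := by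
      refine sum_le_sum fun d hd => ?_
      obtain ⟨hd1, _⟩ := hcop d hd
      have hdsm : d ∈ sm := by
        rw [hBd, mem_filter, mem_filter] at hd
        exact hd.1.1
      have e2 : 1 / ((∏ b, d b : ℕ) : ℝ) = ∏ b ∈ univ.filter (fun b => π b ≠ 2), 1 / (d b : ℝ) := by
        rw [prod_filter, Nat.cast_prod, ← prod_const_one, ← prod_div_distrib]
        refine prod_congr rfl fun b _ => ?_
        by_cases hb : π b = 2
        · have := Fintype.mem_piFinset.1 hdsm b
          rw [if_pos hb, mem_singleton] at this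
          simp [hb, this]
        · simp [hb]
      rw [e2]
      exact prod_le_prod (fun b _ => ah_nonneg _ _ _) fun b _ => ah_le_inv hB b (hd1 b)
    refine (e1.trans (bad_sum hz Bd E hR h2)).trans ?_
    refine prod_le_prod (fun i _ => Nat.cast_nonneg _) fun i _ => ?_
    have : (E i).card ≤ 2 * n + 1 := by
      rw [hE]
      simp only
      by_cases hi : π i = 2
      · rw [if_pos hi]
        have e2 : (Ex (g i) (e i) z y (V ^ Fintype.card ι) true).card ≤ n := hX y hyy hy i true
        have e3 : (Ex (g i) (e i) z y (V ^ Fintype.card ι) false).card ≤ n := hX y hyy hy i false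
        exact (card_union_le _ _).trans (by omega)
      · rw [if_neg hi, card_singleton]
        omega
    exact_mod_cast this
  have hbadsum : ∑ d ∈ Bd, F d ≤ (∏ i : ι, ((2 * n + 1 : ℕ) : ℝ)) * C ^ Fintype.card ι * l ^ K := by
    have e1 : ∀ d ∈ Bd, F d ≤ W d * (C ^ Fintype.card ι * l ^ K) := by
      intro d _
      refine (bad_case hB A π hy d).trans (mul_le_mul_of_nonneg_left ?_ (hW0 d))
      refine mul_le_mul_of_nonneg_left ?_ (by positivity)
      exact Real.rpow_le_rpow_of_exponent_le hly hK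
    refine (sum_le_sum e1).trans ?_
    rw [← sum_mul]
    refine (mul_le_mul_of_nonneg_right hbadW (by positivity)).trans (le_of_eq ?_)
    ring
  have hfin := hsplit.trans (add_le_add hgoodsum hbadsum)
  have h0K : 0 ≤ (C * Real.log (max (y0 : ℝ) 3)) ^ Fintype.card ι * l ^ K := by positivity
  refine hfin.trans ?_
  rw [add_mul, add_mul]
  linarith

/-- all patterns -/
lemma pat (hB : Bw g e c z C) {C2 : ℝ} {E2 : ℕ} (hC2 : 0 ≤ C2) (h2 : BW C2 E2)
    (hL : ∀ i, L i i = false) {K : ℝ}
    (hK : ∀ U : Finset ι, (∀ i ∈ U, ∀ j ∈ U, L i j = L j i) → ∑ i ∈ U, e i ≤ K)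
    (hz : 2 ^ Fintype.card ι ≤ z) {n y0 : ℕ}
    (hX : XB g e z (6 * (Fintype.card ι + 2 * E2)) n y0)
    (π : ι → Fin 4) : ∃ C' : ℝ, ∀ y, z < y →
      |∑ d ∈ Fintype.piFinset (fun b => cell z y (VV (6 * (Fintype.card ι + 2 * E2)) (Real.log y))
        (YY (6 * (Fintype.card ι + 2 * E2)) (Real.log y)) (π b)), HG g L d| ≤
        C' * (Real.log y) ^ K := by
  have hK0 : 0 ≤ K := by simpa using hK ∅ (by simp)
  by_cases h3 : ∃ k, π k = 3
  · obtain ⟨k, hk⟩ := h3
    exact tail_case hB _ hK0 π hk
  push Not at h3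
  by_cases hl : ∃ i j, π i = 2 ∧ π j = 2 ∧ L i j ≠ L j i
  · obtain ⟨i, j, hi, hj, hij⟩ := hl
    exact link_case hB hC2 h2 hL le_rfl hK0 π hi hj hij
  push Not at hl
  have hS : ∑ k ∈ univ.filter (fun k => π k = 2), e k ≤ K := by
    apply hK
    intro i hi j hj
    exact hl i j (mem_filter.1 hi).2 (mem_filter.1 hj).2
  rcases hS.lt_or_eq with hlt | heq
  · exact triv_case hB _ π h3 hlt
  by_cases h1 : ∃ j, π j = 1
  · refine max_case hB hL _ hK0 π h3 (fun i j hi hj => hl i j hi hj) (fun j hj => ?_) hS hz hX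
    by_contra hcon
    push Not at hcon
    have hjn : j ∉ univ.filter (fun k => π k = 2) := by
      rw [mem_filter, hj]
      rintro ⟨-, h⟩
      exact absurd h (by decide)
    have := hK (insert j (univ.filter (fun k => π k = 2))) (by
      intro a ha b hb
      rw [mem_insert] at ha hb
      rcases ha with rfl | ha
      · rcases hb with rfl | hb
        · rfl
        · exact (hcon b (mem_filter.1 hb).2).symm
      · rcases hb with rfl | hb
        · exact hcon a (mem_filter.1 ha).2
        · exact hl a b (mem_filter.1 ha).2 (mem_filter.1 hb).2)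
    rw [sum_insert hjn, heq] at this
    have := hB.e0 j
    linarith
  · push Not at h1
    refine diag_case hB _ π (fun k => ?_) hS
    have a1 := h1 k
    have a3 := h3 k
    revert a1 a3
    generalize π k = r
    revert r
    decide

/-- the sum of the absolute values of the weights over the primes gives the bound F1 -/
lemma f1_of {g : ℕ → ℝ} {e Cg : ℝ} {c z : ℕ} (hz : 2 ≤ z) (hc : 2 * c + 2 ≤ z)
    (hg1 : ∀ p, p.Prime → z < p → |g p| ≤ (1 / 2) / ((p : ℝ) - c))
    (hg2 : ∀ y : ℕ, z < y → ∑ p ∈ PS z y, |g p| ≤ e * Real.log (Real.log y) + Cg) :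
    ∀ y, z < y → ∑ d ∈ (PP z y).divisors, |∏ p ∈ d.primeFactors, g p| * hh d ≤
      Real.exp (Cg + 2) * (Real.log y) ^ e := by
  intro y hy
  have hly := one_le_log hz hy
  have hly0 : 0 < Real.log y := by linarith
  have e1 : ∀ d ∈ (PP z y).divisors, |∏ p ∈ d.primeFactors, g p| * hh d =
      ∏ p ∈ d.primeFactors, (|g p| * (1 + 2 / (p : ℝ))) := by
    intro d _
    rw [abs_prod, hh, prod_mul_distrib]
  rw [sum_congr rfl e1]
  have e2 := Pool.Agent.W655.RK.sum_mult (PS z y) (fun p hp => Pool.Agent.W655.RK.PS_prime hp)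
    (fun p => |g p| * (1 + 2 / (p : ℝ)))
  unfold PP
  rw [e2]
  refine (Pool.Agent.W655.RK.prod_le_exp _ _ fun p _ => by positivity).trans ?_
  have e3 : ∑ p ∈ PS z y, |g p| * (1 + 2 / (p : ℝ)) ≤
      (e * Real.log (Real.log y) + Cg) + 2 := by
    have e4 : ∀ p ∈ PS z y, |g p| * (1 + 2 / (p : ℝ)) ≤ |g p| + 2 * (1 / (p : ℝ) ^ 2) := by
      intro p hp
      have hp' := mem_PS.1 hp
      have h1 := hg1 p hp'.2 hp'.1.1
      have h2 : (2 * c + 3 : ℝ) ≤ p := by exact_mod_cast (by omega : 2 * c + 3 ≤ p)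
      have hc0 : (0 : ℝ) ≤ c := Nat.cast_nonneg c
      have h3 : (0 : ℝ) < (p : ℝ) - c := by linarith
      have hp0 : (0 : ℝ) < p := by linarith
      have h4 : |g p| ≤ 1 / (p : ℝ) := h1.trans (by
        rw [div_le_div_iff₀ h3 hp0]
        linarith)
      have h5 := mul_le_mul_of_nonneg_right h4 (by positivity : 0 ≤ 2 / (p : ℝ))
      calc |g p| * (1 + 2 / (p : ℝ)) = |g p| + |g p| * (2 / (p : ℝ)) := by ring
        _ ≤ |g p| + 1 / (p : ℝ) * (2 / (p : ℝ)) := by linarith
        _ = _ := by ring
    refine (sum_le_sum e4).trans ?_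
    rw [sum_add_distrib, ← mul_sum]
    have h6 := hg2 y hy
    have h7 : ∑ p ∈ PS z y, 1 / (p : ℝ) ^ 2 ≤ 1 := by
      have h8 : ∑ p ∈ PS z y, 1 / (p : ℝ) ^ 2 ≤ ∑ p ∈ Ioc 1 y, 1 / (p : ℝ) ^ 2 := by
        refine sum_le_sum_of_subset_of_nonneg ?_ fun _ _ _ => by positivity
        intro p hp
        have := mem_PS.1 hp
        exact mem_Ioc.2 ⟨by omega, this.1.2⟩
      refine h8.trans ?_
      have h9 : ∀ y : ℕ, ∑ p ∈ Ioc 1 y, 1 / (p : ℝ) ^ 2 ≤ 1 - 1 / (y : ℝ) := by
        intro y
        induction y with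
        | zero => simp
        | succ n ih =>
          rcases Nat.eq_zero_or_pos n with hn | hn
          · subst hn
            simp
          · rw [sum_Ioc_succ_top (by omega)]
            have hn' : (1 : ℝ) ≤ n := by exact_mod_cast hn
            have h3 : 1 / ((n : ℝ) + 1) ^ 2 ≤ 1 / (n : ℝ) - 1 / ((n : ℝ) + 1) := by
              rw [div_sub_div _ _ (by positivity) (by positivity), div_le_div_iff₀ (by positivity)
                (by positivity)]
              nlinarith
            push_cast
            linarith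
      have h10 := h9 y
      have : (0 : ℝ) ≤ 1 / (y : ℝ) := by positivity
      linarith
    linarith
  calc Real.exp (∑ p ∈ PS z y, |g p| * (1 + 2 / (p : ℝ))) ≤
        Real.exp ((e * Real.log (Real.log y) + Cg) + 2) := Real.exp_le_exp.2 e3
    _ = _ := by
        rw [Real.rpow_def_of_pos hly0, ← Real.exp_add]
        congr 1
        ring

/-- **The abstract bound with general weights.** -/
theorem ag (ι : Type) [Fintype ι] [DecidableEq ι] (e : ι → ℝ) (L : ι → ι → Bool) (c : ℕ) (K : ℝ)
    (he : ∀ i, 0 < e i) (hL : ∀ i, L i i = false)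
    (hK : ∀ U : Finset ι, (∀ i ∈ U, ∀ j ∈ U, L i j = L j i) → ∑ i ∈ U, e i ≤ K) :
    ∃ z0 : ℕ, ∀ z, z0 ≤ z → ∀ (g : ι → ℕ → ℝ) (Cg : ℝ),
      (∀ i p, p.Prime → z < p → |g i p| ≤ (1 / 2) / ((p : ℝ) - c)) →
      (∀ i (y : ℕ), z < y → ∑ p ∈ PS z y, |g i p| ≤ e i * Real.log (Real.log y) + Cg) →
      ∃ C : ℝ, ∀ y, z < y →
        |∑ d ∈ Tup ι z y, (∏ i, gg g i (d i)) * Sym L (fun _ => 1) d| ≤ C * (Real.log y) ^ K := by
  classical
  obtain ⟨C2, E2, h2⟩ := Pool.Agent.W655.RK.blw_of (_root_.W37.RK.bl_of Pool.Agent.W505.RK.ls)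
  obtain ⟨zF, hF⟩ := Pool.Agent.W655.RK.full (1 / 2) c (by norm_num) le_rfl
  set A := 6 * (Fintype.card ι + 2 * E2) with hA
  obtain ⟨zE, hzE⟩ : ∃ zE : ℕ, ∀ i, 128 * (Fintype.card ι * (A : ℝ)) ≤ zE * e i := by
    choose zi hzi using fun i => exists_nat_ge (128 * (Fintype.card ι * (A : ℝ)) / e i)
    refine ⟨univ.sup zi, fun i => ?_⟩
    have h1 : (zi i : ℝ) ≤ (univ.sup zi : ℕ) := by exact_mod_cast le_sup (f := zi) (mem_univ i)
    have h3 := (hzi i).trans h1
    rwa [div_le_iff₀ (he i)] at h3
  refine ⟨zF + zE + 2 * c + 2 + 2 ^ Fintype.card ι, fun z hz g Cg hg1 hg2 => ?_⟩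
  have hpow : 0 < 2 ^ Fintype.card ι := by positivity
  obtain ⟨CF, hF1, hF2, hF3⟩ := hF z (by omega)
  have hz2 : 2 ≤ z := by omega
  have hzc : 2 * c + 2 ≤ z := by omega
  set C : ℝ := 1 + 2 * |CF| + Real.exp (Cg + 2) with hC
  have hCF : CF ≤ C := by
    have := le_abs_self CF
    have := abs_nonneg CF
    have := Real.exp_pos (Cg + 2)
    linarith
  have hle : ∀ i (y m : ℕ), m ∈ (PP z y).divisors → ah g i m ≤ gw (1 / 2) c m * hh m :=
    fun i y m hm => mul_le_mul_of_nonneg_right (abs_gg_le_gw hg1 i hm) (hh_nonneg _)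
  have hB : Bw g e c z C :=
    { z2 := hz2
      zc := hzc
      C1 := by
        have := abs_nonneg CF
        have := Real.exp_pos (Cg + 2)
        linarith
      g1 := hg1
      e0 := he
      F0 := fun i y hy => by
        have hly := one_le_log hz2 hy
        refine (sum_le_sum fun m hm => hle i y m hm).trans ((hF1 y hy).trans ?_)
        have h3 : (Real.log y) ^ (1 / 2 : ℝ) ≤ Real.log y := by
          calc (Real.log y) ^ (1 / 2 : ℝ) ≤ (Real.log y) ^ (1 : ℝ) :=
                Real.rpow_le_rpow_of_exponent_le hly (by norm_num)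
            _ = Real.log y := Real.rpow_one _
        have h4 : 0 ≤ (Real.log y) ^ (1 / 2 : ℝ) := by positivity
        have hC0 : 0 ≤ C := by
          have := abs_nonneg CF
          have := Real.exp_pos (Cg + 2)
          linarith
        exact (mul_le_mul_of_nonneg_right hCF h4).trans (mul_le_mul_of_nonneg_left h3 hC0)
      F1 := fun i y hy => by
        refine (f1_of hz2 hzc (hg1 i) (hg2 i) y hy).trans ?_
        refine mul_le_mul_of_nonneg_right ?_ (Real.rpow_nonneg (Real.log_natCast_nonneg y) _)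
        have := abs_nonneg CF
        linarith
      F2 := fun i y V hy hV => by
        refine (sum_le_sum fun m hm => hle i y m (mem_filter.1 hm).1).trans
          ((hF2 y V hy hV).trans ?_)
        have hC0 : 0 ≤ C := by
          have := abs_nonneg CF
          have := Real.exp_pos (Cg + 2)
          linarith
        have hlV : 1 / 4 ≤ Real.log V := by
          have h1 : Real.log 2 ≤ Real.log V :=
            Real.log_le_log (by norm_num) (by exact_mod_cast hV)
          have h2 := Real.log_two_gt_d9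
          linarith
        have h3 : (Real.log V) ^ (1 / 2 : ℝ) ≤ 2 * Real.log V := by
          rw [← Real.sqrt_eq_rpow, Real.sqrt_le_left (by linarith)]
          nlinarith
        have h4 : 0 ≤ (Real.log V) ^ (1 / 2 : ℝ) := by positivity
        have h5 : 0 ≤ Real.log V := by linarith
        have h6 := Real.exp_pos (Cg + 2)
        calc CF * (Real.log V) ^ (1 / 2 : ℝ) ≤ |CF| * (Real.log V) ^ (1 / 2 : ℝ) :=
              mul_le_mul_of_nonneg_right (le_abs_self _) h4
          _ ≤ |CF| * (2 * Real.log V) := mul_le_mul_of_nonneg_left h3 (abs_nonneg _)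
          _ = 2 * |CF| * Real.log V := by ring
          _ ≤ C * Real.log V := mul_le_mul_of_nonneg_right (by linarith) h5
      F3 := fun i y Y hy hY => by
        refine (sum_le_sum fun m hm => hle i y m (mem_filter.1 hm).1).trans
          ((hF3 y Y hy hY).trans ?_)
        apply mul_le_mul_of_nonneg_right _ (by positivity)
        exact mul_le_mul_of_nonneg_right hCF (Real.exp_pos _).le }
  have h2' : AT.BW |C2| E2 := fun V Y hV hVY a b ha hb ha' hb' =>
    (h2 V Y hV hVY a b ha hb ha' hb').trans (by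
      apply mul_le_mul_of_nonneg_right _ (by positivity)
      exact mul_le_mul_of_nonneg_right (le_abs_self C2)
        (pow_nonneg (Real.log_natCast_nonneg Y) _))
  -- the exceptional sets
  have hex : ∀ i, ∃ n y0 : ℕ, ∀ y, y0 ≤ y → z < y → ∀ t : Bool, ∀ S : Finset ℕ,
      (∀ r ∈ S, 1 ≤ r ∧ r ≤ VV A (Real.log y) ^ Fintype.card ι ∧ Squarefree r ∧
        (∀ p : ℕ, p.Prime → p ∣ r → z < p) ∧
        e i / 2 * Real.log (Real.log y) < ∑ p ∈ PS z y, g i p * ps r t p) → S.card ≤ n := by
    intro i
    refine exc (g i) (e i) Cg (he i) z hz2 (fun p hp hpz => (hg1 i p hp hpz).trans ?_) (hg2 i)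
      A (Fintype.card ι) ?_
    · have h3 : (2 * c + 3 : ℝ) ≤ p := by exact_mod_cast (by omega : 2 * c + 3 ≤ p)
      have hc0 : (0 : ℝ) ≤ c := Nat.cast_nonneg c
      rw [div_le_div_iff₀ (by linarith) (by linarith)]
      linarith
    · refine (hzE i).trans (mul_le_mul_of_nonneg_right ?_ (he i).le)
      exact_mod_cast (by omega : zE ≤ z)
  choose ni yi hni using hex
  have hX : XB g e z A (univ.sup ni) (univ.sup yi) := by
    intro y hy hzy i t
    have h3 : yi i ≤ y := (le_sup (f := yi) (mem_univ i)).trans hy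
    refine (hni i y h3 hzy t _ fun r hr => ?_).trans (le_sup (f := ni) (mem_univ i))
    obtain ⟨⟨h4, h5⟩, h6, h7, h8⟩ := mem_Ex.1 hr
    exact ⟨h4, h5, h6, h7, h8⟩
  choose C' hC' using fun π : ι → Fin 4 => pat hB (abs_nonneg C2) h2' hL hK (by omega) hX π
  refine ⟨∑ π, C' π, fun y hy => ?_⟩
  rw [total_eq, AT.patterns z y (AT.VV A (Real.log y)) (AT.YY A (Real.log y)), sum_mul]
  exact (abs_sum_le_sum_abs _ _).trans (sum_le_sum fun π _ => hC' π y hy)

end Pool.Agent.L0h5.AG
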